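import Pool.Agent.Work.MP_db9399_oc_helper22.Base

/-!
# MP_db9399, block IDX0 (helper22)
-/

set_option autoImplicit false

namespace Pool.Agent.Work.MP_db9399_oc_helper22

open Finset Classical Filter
open Pool.Agent.Work.MP_db9399_all (nb)
open Pool.Agent.Work.MP_db9399_lt (us)
open Pool.Agent.Work.MP_db9399_da hiding qV
open Pool.Agent.Work.MP_db9399_xf
open Pool.Agent.Work.MP_db9399_x4
open Pool.Agent.Work.MP_db9399_oc

universe u

/-- thresholds for IDX0 and IDX1 -/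
noncomputable def Th0 : Thr where
  π0 := fun _ => 1
  κ0 := fun _ _ => 1 / 1000
  ε0 := fun _ _ _ => 1 / 1000
  ζ0 := fun _ _ _ _ => 1
  θ0 := fun _ _ _ _ _ => 1

theorem Th0_pos : Th0.Pos := by
  refine ⟨fun _ _ => ?_, fun _ _ _ _ => ?_, fun _ _ _ _ _ _ => ?_, fun _ _ _ _ _ _ _ _ => ?_,
    fun _ _ _ _ _ _ _ _ _ _ => ?_⟩ <;> simp only [Th0] <;> norm_num

section
variable {V : Type u} [Fintype V] {N J : ℕ} (D : OD V N J)

/-- region of the test -/
def rt (c : Bool) : ℕ := match c with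
  | true => 2
  | false => 0

/-- lower bound for the probability -/
noncomputable def lo0 (c : Bool) : ℝ := match c with
  | true => 0
  | false => 1 / 25 - 1 / D.d

/-- upper bound for the probability -/
noncomputable def hi0 (v : V) (c : Bool) : ℝ := match c with
  | true => (10 / 22 * ((D.Qn (D.X.P.pc v) (D.X.P.pt v)).card : ℝ) + 1) / D.d
  | false => 1

/-- bulk neighbours of `v` in the part of `v` (`c = false`) or in the other part -/
noncomputable def A0 (v : V) (c : Bool) : Finset V :=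
  univ.filter (fun w : V => (bulk D.G D.X.P).Adj v w ∧
    D.X.P.pt w = (if c then !(D.X.P.pt v) else D.X.P.pt v))

theorem mem_A0 {v w : V} {c : Bool} (h : w ∈ A0 D v c) :
    (bulk D.G D.X.P).Adj v w ∧ D.X.P.pt w = (if c then !(D.X.P.pt v) else D.X.P.pt v) :=
  (Finset.mem_filter.1 h).2

/-- the number of `y` in a region -/
noncomputable def cr (v : V) (r : ℕ) : ℕ := ((range D.d).filter (fun y => reg D v y = r)).card

omit [Fintype V] in
theorem cr0 (v : V) : (D.d : ℝ) / 25 - 1 ≤ cr D v 0 := by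
  have h := (cnt_Ico D.d 0 (D.d / 25) le_rfl (by positivity) (by
    have : (0 : ℝ) ≤ D.d := Nat.cast_nonneg _
    linarith)).1
  unfold cr
  rw [Finset.filter_congr (fun y _ => reg0 D v y)]
  linarith

omit [Fintype V] in
theorem cr1 (v : V) : (D.d : ℝ) / 25 - 1 ≤ cr D v 1 := by
  have h := (cnt_Ico D.d (D.d / 25) (2 * D.d / 25) (by positivity) (by
    have : (0 : ℝ) ≤ D.d := Nat.cast_nonneg _
    linarith) (by
    have : (0 : ℝ) ≤ D.d := Nat.cast_nonneg _
    linarith)).1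
  unfold cr
  rw [Finset.filter_congr (fun y _ => reg1 D v y)]
  linarith

omit [Fintype V] in
theorem cr2 (v : V) (hq : ((D.Qn (D.X.P.pc v) (!(D.X.P.pt v))).card : ℝ) ≤ D.d) :
    10 / 22 * ((D.Qn (D.X.P.pc v) (!(D.X.P.pt v))).card : ℝ) - 1 ≤ cr D v 2 ∧
      (cr D v 2 : ℝ) ≤ 10 / 22 * ((D.Qn (D.X.P.pc v) (!(D.X.P.pt v))).card : ℝ) + 1 := by
  have h0 : (0 : ℝ) ≤ D.d := Nat.cast_nonneg _
  have h1 : (0 : ℝ) ≤ ((D.Qn (D.X.P.pc v) (!(D.X.P.pt v))).card : ℝ) := Nat.cast_nonneg _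
  have h := cnt_Ico D.d (2 * D.d / 25)
    (2 * D.d / 25 + 10 / 22 * (D.Qn (D.X.P.pc v) (!(D.X.P.pt v))).card) (by positivity)
    (by linarith) (by linarith)
  unfold cr
  rw [Finset.filter_congr (fun y _ => reg2 D v y)]
  constructor
  · linarith [h.1]
  · linarith [h.2]

omit [Fintype V] in
theorem cr3 (v : V) (hq : ((D.Qn (D.X.P.pc v) (!(D.X.P.pt v))).card : ℝ) ≤ D.d) :
    23 / 25 * (D.d : ℝ) - 10 / 22 * ((D.Qn (D.X.P.pc v) (!(D.X.P.pt v))).card : ℝ) - 1 ≤
      cr D v 3 := by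
  have h0 : (0 : ℝ) ≤ D.d := Nat.cast_nonneg _
  have h1 : (0 : ℝ) ≤ ((D.Qn (D.X.P.pc v) (!(D.X.P.pt v))).card : ℝ) := Nat.cast_nonneg _
  have h := cnt_Ico D.d (2 * D.d / 25 + 10 / 22 * (D.Qn (D.X.P.pc v) (!(D.X.P.pt v))).card)
    D.d (by positivity) (by linarith) le_rfl
  unfold cr
  have he : (range D.d).filter (fun y => reg D v y = 3) = (range D.d).filter (fun y : ℕ =>
      (2 * D.d / 25 + 10 / 22 * (D.Qn (D.X.P.pc v) (!(D.X.P.pt v))).card : ℝ) ≤ (y : ℝ) ∧
        (y : ℝ) < D.d) := by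
    apply Finset.filter_congr
    intro y hy
    rw [reg3]
    have : (y : ℝ) < D.d := by exact_mod_cast Finset.mem_range.1 hy
    exact ⟨fun h => ⟨h, this⟩, fun h => h.1⟩
  rw [he]
  linarith [h.1]

end

theorem A0_card {V : Type u} [Fintype V] {N J : ℕ} {k : Con} {c' : ℝ} {D : OD V N J}
    (h : Hyp k c' D) (v : V) (c : Bool) : (A0 D v c).card ≤ D.d := by
  rw [← h.pc.reg v]
  apply Finset.card_le_card
  intro w hw
  exact Finset.mem_filter.2 ⟨Finset.mem_univ _, (mem_A0 D hw).1.1⟩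

theorem A0_dual {V : Type u} [Fintype V] {N J : ℕ} {k : Con} {c' : ℝ} {D : OD V N J}
    (h : Hyp k c' D) (w : V) :
    (univ.filter (fun kk : V × Bool => w ∈
      (if InT D.X Ty.B kk.1 then A0 D kk.1 kk.2 else ∅))).card ≤ 2 * D.d := by
  have hsub : (univ.filter (fun kk : V × Bool => w ∈
      (if InT D.X Ty.B kk.1 then A0 D kk.1 kk.2 else ∅))) ⊆
      (nb D.G w) ×ˢ (univ : Finset Bool) := by
    rintro ⟨v, c⟩ hv
    rw [Finset.mem_product]
    refine ⟨?_, Finset.mem_univ _⟩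
    have h1 := (Finset.mem_filter.1 hv).2
    by_cases hB : InT D.X Ty.B v
    · rw [if_pos hB] at h1
      exact Finset.mem_filter.2 ⟨Finset.mem_univ _, (mem_A0 D h1).1.1.symm⟩
    · rw [if_neg hB] at h1
      exact absurd h1 (Finset.notMem_empty _)
  refine (Finset.card_le_card hsub).trans ?_
  rw [Finset.card_product, h.pc.reg w, Finset.card_univ, Fintype.card_bool, mul_comm]

theorem stmt_IDX0 : Stmt_IDX0.{u} := by
  intro k _
  refine ⟨Th0, Th0_pos, ?_⟩
  intro J S c' hS hc0 hc1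
  have hev : ∀ᶠ d : ℕ in atTop, 1000000 ≤ (d : ℝ) ∧ (Real.log d) ^ 2 ≤ 1 / 1000 * (d : ℝ) ∧
      ∀ s : Fin J, (Real.log d) ^ 2 ≤ (S s).κ / 1000 * (d : ℝ) ∧ 1000 ≤ (S s).κ * (d : ℝ) := by
    refine (ev_const1 _).and ((ev_log1 (by norm_num)).and ?_)
    rw [eventually_all]
    intro s
    have hκ := (hS s).κ.1
    refine (ev_log1 (by positivity)).and ?_
    filter_upwards [ev_const1 (1000 / (S s).κ)] with d hd
    rw [div_le_iff₀ hκ] at hd
    linarith
  obtain ⟨d0, hd0⟩ := eventually_atTop.1 hev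
  refine ⟨d0, ?_⟩
  intro V _ N D hD hDS hH
  obtain ⟨hd1, hd2, hd3⟩ := hd0 D.d hD
  have hdn : 1 ≤ D.d := by
    have : (1 : ℝ) ≤ D.d := by linarith
    exact_mod_cast this
  have hdpos : (0 : ℝ) < D.d := by linarith
  have hm := m0_pos hH hc1 hdn
  have hmR : (0 : ℝ) < D.m0 := by exact_mod_cast hm
  -- the palettes
  have hQ : ∀ n, D.X.P.ty n = Ty.B → ∀ i, (S (D.X.sc n)).κ * D.d ≤ ((D.Qn n i).card : ℝ) ∧
      ((D.Qn n i).card : ℝ) ≤ D.d / 500 := by
    intro n hn i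
    have h1 := hH.sel.Qc n (Or.inr hn) i
    rw [hDS] at h1
    refine ⟨h1.1, h1.2.trans ?_⟩
    have h2 : (S (D.X.sc n)).κ ≤ 1 / 1000 := (hS _).κ.2
    have := mul_le_mul_of_nonneg_right h2 hdpos.le
    linarith
  have hε : ∀ n, (S (D.X.sc n)).ε ≤ 1 / 1000 := fun n => (hS _).ε.2
  refine pk_vtx D (K := V × Bool) (fun kk => if InT D.X Ty.B kk.1 then A0 D kk.1 kk.2 else ∅)
    (fun kk w a => reg D w (a / D.m0) = rt kk.2) (fun kk => lo0 D kk.2)
    (fun kk => hi0 D kk.1 kk.2) hm hdn ?_ ?_ ?_ ?_ ?_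
  · rintro ⟨v, c⟩ w hw
    dsimp only at hw ⊢
    rw [cnt_div D.m0 D.d hm (fun y => reg D w y = rt c)]
    cases c
    · have h2 := cr0 D w
      change (1 / 25 - 1 / (D.d : ℝ)) * (D.m0 * D.d) ≤ ((D.m0 * cr D w 0 : ℕ) : ℝ)
      push_cast
      have h4 := mul_le_mul_of_nonneg_left h2 hmR.le
      calc (1 / 25 - 1 / (D.d : ℝ)) * (D.m0 * D.d) = D.m0 * ((D.d : ℝ) / 25 - 1) := by
            field_simp
        _ ≤ _ := h4
    · change (0 : ℝ) * (D.m0 * D.d) ≤ _
      rw [zero_mul]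
      exact Nat.cast_nonneg _
  · rintro ⟨v, c⟩ w hw
    dsimp only at hw ⊢
    rw [cnt_div D.m0 D.d hm (fun y => reg D w y = rt c)]
    cases c
    · change ((D.m0 * cr D w 0 : ℕ) : ℝ) ≤ 1 * (D.m0 * D.d)
      have h2 : cr D w 0 ≤ D.d :=
        (Finset.card_filter_le _ _).trans (le_of_eq (Finset.card_range _))
      rw [one_mul]
      exact_mod_cast Nat.mul_le_mul_left D.m0 h2
    · have hw' : w ∈ A0 D v true ∧ InT D.X Ty.B v := by
        by_cases hB : InT D.X Ty.B v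
        · rw [if_pos hB] at hw; exact ⟨hw, hB⟩
        · rw [if_neg hB] at hw; exact absurd hw (Finset.notMem_empty _)
      obtain ⟨hw1, hw2⟩ := mem_A0 D hw'.1
      rw [if_pos rfl] at hw2
      have hpc : D.X.P.pc w = D.X.P.pc v := hw1.2.2.2.1.symm
      have hq : (D.Qn (D.X.P.pc w) (!(D.X.P.pt w))).card =
          (D.Qn (D.X.P.pc v) (D.X.P.pt v)).card := by
        rw [hpc, hw2, Bool.not_not]
      have hqd : ((D.Qn (D.X.P.pc w) (!(D.X.P.pt w))).card : ℝ) ≤ D.d := by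
        rw [hq]
        have := (hQ (D.X.P.pc v) hw'.2.2 (D.X.P.pt v)).2
        linarith
      have h2 := (cr2 D w hqd).2
      rw [hq] at h2
      change ((D.m0 * cr D w 2 : ℕ) : ℝ) ≤
        (10 / 22 * ((D.Qn (D.X.P.pc v) (D.X.P.pt v)).card : ℝ) + 1) / D.d * (D.m0 * D.d)
      push_cast
      have h4 := mul_le_mul_of_nonneg_left h2 hmR.le
      refine h4.trans (le_of_eq ?_)
      field_simp
  · rintro ⟨v, c⟩
    dsimp only
    refine pow40 hdn (n := 1) (by norm_num) ?_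
    rw [pow_one]
    by_cases hB : InT D.X Ty.B v
    · rw [if_pos hB]
      exact_mod_cast A0_card hH v c
    · rw [if_neg hB]
      simp
  · intro w
    refine pow40 hdn (n := 2) (by norm_num) ?_
    have h1 : ((univ.filter (fun kk : V × Bool => w ∈
      (if InT D.X Ty.B kk.1 then A0 D kk.1 kk.2 else ∅))).card : ℝ) ≤ 2 * D.d := by
      exact_mod_cast A0_dual hH w
    refine h1.trans ?_
    nlinarith
  · intro x _ hx
    constructor
    · intro n hn v
      have hB : InT D.X Ty.B v.1 := ⟨v.2.1, by rw [v.2.2]; exact hn⟩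
      have h1 := (hx (v.1, false)).1
      dsimp only at h1
      rw [if_pos hB] at h1
      have hbd := (abs_le.1 (hH.pc.bD n hn v (ptn D.X.P n v))).1
      rw [card_bk', hDS] at hbd
      have hA : (univ.filter (fun w : V => (bulk D.G D.X.P).Adj v.1 w ∧
          D.X.P.pt w = ptn D.X.P n v)) = A0 D v.1 false := by
        unfold A0
        apply Finset.filter_congr
        intro w _
        simp [ptn]
      rw [hA] at hbd
      rw [card_bk (G := D.G) (P := D.X.P) (n := n) (fun w => D.rgX x w = 0) v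
        (ptn D.X.P n v), hA]
      refine le_trans ?_ (le_card_of (fun _ _ => Iff.rfl) h1)
      change (D.d : ℝ) / 1000 ≤ (1 - 1 / 200) * ((1 / 25 - 1 / (D.d : ℝ)) *
        ((A0 D v.1 false).card : ℝ)) - Real.log D.d ^ 2
      have hεn := hε n
      have h4 : (1 / 2 - 1 / 1000) * (D.d : ℝ) ≤ ((A0 D v.1 false).card : ℝ) := by
        have := mul_le_mul_of_nonneg_right hεn hdpos.le
        linarith
      have h5 : (1 / 25 - 1 / 1000000 : ℝ) ≤ 1 / 25 - 1 / (D.d : ℝ) := by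
        have : 1 / (D.d : ℝ) ≤ 1 / 1000000 := one_div_le_one_div_of_le (by norm_num) hd1
        linarith
      have h6 : (1 / 25 - 1 / 1000000 : ℝ) * ((1 / 2 - 1 / 1000) * (D.d : ℝ)) ≤
          (1 / 25 - 1 / (D.d : ℝ)) * ((A0 D v.1 false).card : ℝ) :=
        mul_le_mul h5 h4 (by positivity) (by linarith)
      linarith
    · intro n hn v
      have hB : InT D.X Ty.B v.1 := ⟨v.2.1, by rw [v.2.2]; exact hn⟩
      have h1 := (hx (v.1, true)).2
      dsimp only at h1
      rw [if_pos hB] at h1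
      have hbd := (abs_le.1 (hH.pc.bD n hn v (!(ptn D.X.P n v)))).2
      rw [card_bk', hDS] at hbd
      have hA : (univ.filter (fun w : V => (bulk D.G D.X.P).Adj v.1 w ∧
          D.X.P.pt w = !(ptn D.X.P n v))) = A0 D v.1 true := by
        unfold A0
        apply Finset.filter_congr
        intro w _
        simp [ptn]
      rw [hA] at hbd
      rw [card_bk (G := D.G) (P := D.X.P) (n := n) (fun w => D.rgX x w = 2) v
        (!(ptn D.X.P n v)), hA]
      refine le_trans (card_le_of (fun _ _ => Iff.rfl) h1) ?_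
      have hpc : D.X.P.pc v.1 = n := v.2.2
      have hpt : D.X.P.pt v.1 = ptn D.X.P n v := rfl
      change (1 + 1 / 200) * ((10 / 22 * ((D.Qn (D.X.P.pc v.1) (D.X.P.pt v.1)).card : ℝ) + 1) /
        D.d * ((A0 D v.1 true).card : ℝ)) + Real.log D.d ^ 2 ≤ _
      rw [hpc, hpt]
      have hq2 := (hQ n hn (ptn D.X.P n v)).1
      have hεn := hε n
      have h4 : ((A0 D v.1 true).card : ℝ) ≤ (1 / 2 + 1 / 1000) * (D.d : ℝ) := by
        have := mul_le_mul_of_nonneg_right hεn hdpos.le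
        linarith
      set q : ℝ := ((D.Qn n (ptn D.X.P n v)).card : ℝ) with hqdef
      have hq0 : 0 ≤ q := Nat.cast_nonneg _
      have h5 : (10 / 22 * q + 1) / D.d * ((A0 D v.1 true).card : ℝ) ≤
          (10 / 22 * q + 1) * (1 / 2 + 1 / 1000) := by
        rw [div_mul_eq_mul_div, div_le_iff₀ hdpos]
        calc (10 / 22 * q + 1) * ((A0 D v.1 true).card : ℝ) ≤
            (10 / 22 * q + 1) * ((1 / 2 + 1 / 1000) * (D.d : ℝ)) :=
              mul_le_mul_of_nonneg_left h4 (by positivity)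
          _ = _ := by ring
      obtain ⟨h6, h7⟩ := hd3 (D.X.sc n)
      linarith

end Pool.Agent.Work.MP_db9399_oc_helper22
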