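import Pool.Agent.Work.MP_db9399_oc_helper22.IDX0

/-!
# MP_db9399, block IDX1 (helper22)
-/

set_option autoImplicit false

namespace Pool.Agent.Work.MP_db9399_oc_helper22

open Finset Classical Filter
open Pool.Agent.Work.MP_db9399_all (nb)
open Pool.Agent.Work.MP_db9399_lt (us)
open Pool.Agent.Work.MP_db9399_da hiding qV
open Pool.Agent.Work.MP_db9399_xf
open Pool.Agent.Work.MP_db9399_x4
open Pool.Agent.Work.MP_db9399_oc

universe u

section
variable {V : Type u} [Fintype V] {N J : ℕ} (D : OD V N J)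

/-- lower bounds for the numbers of `y` in the regions 1, 2, 3 -/
noncomputable def L1 (n : Fin N) (i : Bool) (r : Fin 3) : ℝ :=
  match r with
  | 0 => D.d / 25 - 1
  | 1 => 10 / 22 * ((D.Qn n (!i)).card : ℝ) - 1
  | 2 => 23 / 25 * D.d - 10 / 22 * ((D.Qn n (!i)).card : ℝ) - 1

theorem mem_Av {U : Finset V} {cR : V → ℕ} {n : Fin N} {β i : Bool} {b : ℕ} {v : V}
    (h : v ∈ D.Av U cR n β i b) : v ∈ qV D.X n β i := (Finset.mem_filter.1 h).1

/-- the set of the test -/
noncomputable def A1 (U : Finset V) (cR : V → ℕ) (n : Fin N) (β i : Bool) (b : ℕ) : Finset V :=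
  if D.X.P.ty n = Ty.B then D.Av U cR n β i b else ∅

theorem mem_A1 {U : Finset V} {cR : V → ℕ} {n : Fin N} {β i : Bool} {b : ℕ} {v : V}
    (h : v ∈ A1 D U cR n β i b) : D.X.P.ty n = Ty.B ∧ v ∈ D.Av U cR n β i b := by
  unfold A1 at h
  by_cases hB : D.X.P.ty n = Ty.B
  · rw [if_pos hB] at h; exact ⟨hB, h⟩
  · rw [if_neg hB] at h; exact absurd h (Finset.notMem_empty _)

/-- the index of a test -/
abbrev K1 : Type u := ULift.{u} (Fin N × Bool × Bool × Fin (D.d + 2) × Fin D.m0 × Fin 3)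

theorem K1_dual (U : Finset V) (cR : V → ℕ) (v : V) :
    (univ.filter (fun kk : K1 D => v ∈
      A1 D U cR kk.down.1 kk.down.2.1 kk.down.2.2.1 (kk.down.2.2.2.1 : ℕ))).card ≤
      (D.d + 2) * (D.m0 * 3) := by
  have hsub : (univ.filter (fun kk : K1 D => v ∈
      A1 D U cR kk.down.1 kk.down.2.1 kk.down.2.2.1 (kk.down.2.2.2.1 : ℕ))) ⊆
      (univ : Finset (Fin (D.d + 2) × Fin D.m0 × Fin 3)).image
        (fun t => (ULift.up (D.X.P.pc v, D.X.P.sd v, D.X.P.pt v, t.1, t.2.1, t.2.2) : K1 D)) := by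
    rintro ⟨n, β, i, b, j, r⟩ hk
    have h1 := (Finset.mem_filter.1 hk).2
    obtain ⟨⟨_, h3, h4⟩, h5⟩ := mem_qV.1 (mem_Av D (mem_A1 D h1).2)
    rw [Finset.mem_image]
    refine ⟨(b, j, r), Finset.mem_univ _, ?_⟩
    dsimp only at h3 h4 h5 ⊢
    rw [h3, h4, h5]
  refine (Finset.card_le_card hsub).trans (Finset.card_image_le.trans ?_)
  rw [Finset.card_univ, Fintype.card_prod, Fintype.card_prod, Fintype.card_fin, Fintype.card_fin,
    Fintype.card_fin]

end

theorem stmt_IDX1 : Stmt_IDX1.{u} := by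
  intro k hk
  refine ⟨Th0, Th0_pos, ?_⟩
  intro J S c' hS hc0 hc1
  have hev : ∀ᶠ d : ℕ in atTop, 1000000 ≤ (d : ℝ) ∧ k.C ≤ (d : ℝ) ∧
      ∀ s : Fin J, (Real.log d) ^ 2 ≤ (S s).κ * (S s).ζ / 1000000 * (d : ℝ) ^ (c' / 2) ∧
        1000 ≤ (S s).κ * (d : ℝ) := by
    refine (ev_const1 _).and ((ev_const1 _).and ?_)
    rw [eventually_all]
    intro s
    have hκ := (hS s).κ.1
    have hζ := (hS s).ζ.1
    refine (ev_log (by positivity) (by linarith)).and ?_
    filter_upwards [ev_const1 (1000 / (S s).κ)] with d hd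
    rw [div_le_iff₀ hκ] at hd
    linarith
  obtain ⟨d0, hd0⟩ := eventually_atTop.1 hev
  refine ⟨d0, ?_⟩
  intro V _ N D hD hDS hH U cR
  obtain ⟨hd1, hdC, hd3⟩ := hd0 D.d hD
  have hdn : 1 ≤ D.d := by
    have : (1 : ℝ) ≤ D.d := by linarith
    exact_mod_cast this
  have hdpos : (0 : ℝ) < D.d := by linarith
  have hm := m0_pos hH hc1 hdn
  have hmR : (0 : ℝ) < D.m0 := by exact_mod_cast hm
  have hmd : (0 : ℝ) < D.m0 * D.d := by positivity
  have hmle := m0_le_d hH hc0 hdn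
  have hmul := m0_mul hH hdn
  -- the palettes
  have hQ : ∀ n, D.X.P.ty n = Ty.B → ∀ i, (S (D.X.sc n)).κ * D.d ≤ ((D.Qn n i).card : ℝ) ∧
      ((D.Qn n i).card : ℝ) ≤ D.d / 500 := by
    intro n hn i
    have h1 := hH.sel.Qc n (Or.inr hn) i
    rw [hDS] at h1
    refine ⟨h1.1, h1.2.trans ?_⟩
    have h2 : (S (D.X.sc n)).κ ≤ 1 / 1000 := (hS _).κ.2
    have := mul_le_mul_of_nonneg_right h2 hdpos.le
    linarith
  refine pk_vtx D (K := K1 D)
    (fun kk => A1 D U cR kk.down.1 kk.down.2.1 kk.down.2.2.1 (kk.down.2.2.2.1 : ℕ))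
    (fun kk v a => reg D v (a / D.m0) = (kk.down.2.2.2.2.2 : ℕ) + 1 ∧
      a % D.m0 = (kk.down.2.2.2.2.1 : ℕ))
    (fun kk => L1 D kk.down.1 kk.down.2.2.1 kk.down.2.2.2.2.2 / (D.m0 * D.d))
    (fun kk => 1 / D.m0) hm hdn ?_ ?_ ?_ ?_ ?_
  · rintro ⟨n, β, i, b, j, r⟩ v hv
    dsimp only at hv ⊢
    obtain ⟨hB, hv'⟩ := mem_A1 D hv
    obtain ⟨⟨_, h3, h4⟩, h5⟩ := mem_qV.1 (mem_Av D hv')
    rw [cnt_mod D.m0 D.d j j.2 (fun y => reg D v y = (r : ℕ) + 1), div_mul_cancel₀ _ hmd.ne']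
    have hqd : ((D.Qn (D.X.P.pc v) (!(D.X.P.pt v))).card : ℝ) ≤ D.d := by
      rw [h3, h5]
      have := (hQ n hB (!i)).2
      linarith
    fin_cases r
    · exact cr1 D v
    · have h6 := (cr2 D v hqd).1
      rw [h3, h5] at h6
      exact h6
    · have h6 := cr3 D v hqd
      rw [h3, h5] at h6
      exact h6
  · rintro ⟨n, β, i, b, j, r⟩ v hv
    dsimp only at hv ⊢
    rw [cnt_mod D.m0 D.d j j.2 (fun y => reg D v y = (r : ℕ) + 1)]
    have h2 : (((range D.d).filter (fun y => reg D v y = (r : ℕ) + 1)).card : ℝ) ≤ D.d := by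
      exact_mod_cast (Finset.card_filter_le _ _).trans (le_of_eq (Finset.card_range _))
    refine h2.trans (le_of_eq ?_)
    field_simp
  · rintro ⟨n, β, i, b, j, r⟩
    dsimp only
    refine pow40 hdn (n := 2) (by norm_num) ?_
    have h1 : ((A1 D U cR n β i (b : ℕ)).card : ℝ) ≤ (qV D.X n β i).card := by
      exact_mod_cast Finset.card_le_card (fun v hv => mem_Av D (mem_A1 D hv).2)
    refine (h1.trans (qV_le hH n β i)).trans ?_
    rw [pow_two]
    exact mul_le_mul_of_nonneg_right hdC hdpos.le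
  · intro v
    refine pow40 hdn (n := 4) (by norm_num) ?_
    have h1 := K1_dual D U cR v
    have h2 : (((D.d + 2) * (D.m0 * 3) : ℕ) : ℝ) ≤ (D.d : ℝ) ^ 4 := by
      push_cast
      have h3 : (D.m0 : ℝ) ≤ D.d := by exact_mod_cast hmle
      have h4 : ((D.d : ℝ) + 2) ≤ 2 * D.d := by linarith
      calc ((D.d : ℝ) + 2) * (D.m0 * 3) ≤ (2 * D.d) * (D.d * 3) := by
            apply mul_le_mul h4 (by linarith) (by positivity) (by positivity)
        _ = 6 * (D.d : ℝ) ^ 2 := by ring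
        _ ≤ (D.d : ℝ) ^ 2 * (D.d : ℝ) ^ 2 := by
            apply mul_le_mul_of_nonneg_right _ (by positivity)
            nlinarith
        _ = (D.d : ℝ) ^ 4 := by ring
    exact le_trans (by exact_mod_cast h1) h2
  · intro x _ hx
    have key : ∀ n β i b j, D.X.P.ty n = Ty.B → b < D.d + 2 → j < D.m0 →
        (D.sl n).ζ / 50 * D.d ≤ ((D.Av U cR n β i b).card : ℝ) → ∀ r : Fin 3,
        (1 - 1 / 200) * (L1 D n i r / D.d * (((D.Av U cR n β i b).card : ℝ) / D.m0)) -
            (S (D.X.sc n)).κ / 20000 * (((D.Av U cR n β i b).card : ℝ) / D.m0) ≤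
          (((D.Av U cR n β i b).filter
            (fun v => D.rgX x v = (r : ℕ) + 1 ∧ D.tauX x v = j)).card : ℝ) := by
      intro n β i b j hn hb hj hbig r
      have h1 := (hx (ULift.up (n, β, i, ⟨b, hb⟩, ⟨j, hj⟩, r))).1
      dsimp only at h1
      have hA : A1 D U cR n β i b = D.Av U cR n β i b := if_pos hn
      rw [hA] at h1
      refine le_trans ?_ (le_card_of (fun _ _ => Iff.rfl) h1)
      have h2 := (hd3 (D.X.sc n)).1
      have hκ := (hS (D.X.sc n)).κ.1
      have hζ := (hS (D.X.sc n)).ζ.1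
      have h3 : (S (D.X.sc n)).ζ / 50 * (D.d : ℝ) ^ (c' / 2) ≤
          ((D.Av U cR n β i b).card : ℝ) / D.m0 := by
        rw [le_div_iff₀ hmR]
        have hbig' : (S (D.X.sc n)).ζ / 50 * D.d ≤ ((D.Av U cR n β i b).card : ℝ) := by
          have : D.sl n = S (D.X.sc n) := by unfold OD.sl; rw [hDS]
          rw [← this]; exact hbig
        refine le_trans ?_ hbig'
        have := mul_le_mul_of_nonneg_left hmul (by positivity : 0 ≤ (S (D.X.sc n)).ζ / 50)
        linarith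
      have h4 := mul_le_mul_of_nonneg_left h3 (by positivity : 0 ≤ (S (D.X.sc n)).κ / 20000)
      have h5 : L1 D n i r / D.d * (((D.Av U cR n β i b).card : ℝ) / D.m0) =
          L1 D n i r / (D.m0 * D.d) * ((D.Av U cR n β i b).card : ℝ) := by
        field_simp
      rw [h5]
      have h6 : (S (D.X.sc n)).κ * (S (D.X.sc n)).ζ / 1000000 * (D.d : ℝ) ^ (c' / 2) =
          (S (D.X.sc n)).κ / 20000 * ((S (D.X.sc n)).ζ / 50 * (D.d : ℝ) ^ (c' / 2)) := by ring
      linarith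
    have hκb : ∀ n, 0 < (S (D.X.sc n)).κ ∧ (S (D.X.sc n)).κ ≤ 1 / 1000 := fun n => (hS _).κ
    have hdinv : 1 / (D.d : ℝ) ≤ 1 / 1000000 := one_div_le_one_div_of_le (by norm_num) hd1
    refine ⟨?_, ?_, ?_⟩
    · intro n β i b j hn hb hj hbig
      refine le_trans ?_ (key n β i b j hn hb hj hbig 0)
      have ha : 0 ≤ ((D.Av U cR n β i b).card : ℝ) / D.m0 := by positivity
      have e1 : ((D.Av U cR n β i b).card : ℝ) / (30 * D.m0) =
          1 / 30 * (((D.Av U cR n β i b).card : ℝ) / D.m0) := by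
        field_simp
      rw [e1]
      have e2 : L1 D n i 0 / D.d = 1 / 25 - 1 / (D.d : ℝ) := by
        change ((D.d : ℝ) / 25 - 1) / D.d = _
        field_simp
      rw [e2]
      set a := ((D.Av U cR n β i b).card : ℝ) / D.m0 with hadef
      obtain ⟨k1, k2⟩ := hκb n
      have h1 : (1 / 25 - 1 / 1000000) * a ≤ (1 / 25 - 1 / (D.d : ℝ)) * a :=
        mul_le_mul_of_nonneg_right (by linarith) ha
      have h2 : (S (D.X.sc n)).κ / 20000 * a ≤ 1 / 1000 / 20000 * a :=
        mul_le_mul_of_nonneg_right (by linarith) ha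
      linarith
    · intro n β i b j hn hb hj hbig
      refine le_trans ?_ (key n β i b j hn hb hj hbig 1)
      have ha : 0 ≤ ((D.Av U cR n β i b).card : ℝ) / D.m0 := by positivity
      have e1 : ((D.Qn n (!i)).card : ℝ) * ((D.Av U cR n β i b).card : ℝ) /
          (23 / 10 * D.d * D.m0) = 10 / 23 * (((D.Qn n (!i)).card : ℝ) / D.d) *
            (((D.Av U cR n β i b).card : ℝ) / D.m0) := by
        field_simp
      rw [e1]
      have e2 : L1 D n i 1 / D.d = 10 / 22 * (((D.Qn n (!i)).card : ℝ) / D.d) -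
          1 / (D.d : ℝ) := by
        change (10 / 22 * ((D.Qn n (!i)).card : ℝ) - 1) / D.d = _
        field_simp
      rw [e2]
      set a := ((D.Av U cR n β i b).card : ℝ) / D.m0 with hadef
      obtain ⟨k1, k2⟩ := hκb n
      have h1 : (S (D.X.sc n)).κ ≤ ((D.Qn n (!i)).card : ℝ) / D.d := by
        rw [le_div_iff₀ hdpos]
        exact (hQ n hn (!i)).1
      set q := ((D.Qn n (!i)).card : ℝ) / D.d with hqdef
      have h2 : 1 / (D.d : ℝ) ≤ (S (D.X.sc n)).κ / 1000 := by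
        rw [div_le_iff₀ hdpos]
        have := (hd3 (D.X.sc n)).2
        linarith
      have h3 : 10 / 23 * q ≤ (1 - 1 / 200) * (10 / 22 * q - 1 / (D.d : ℝ)) -
          (S (D.X.sc n)).κ / 20000 := by linarith
      have := mul_le_mul_of_nonneg_right h3 ha
      linarith
    · intro n β i b j hn hb hj hbig
      refine le_trans ?_ (key n β i b j hn hb hj hbig 2)
      have ha : 0 ≤ ((D.Av U cR n β i b).card : ℝ) / D.m0 := by positivity
      have e1 : 91 / 100 * ((D.Av U cR n β i b).card : ℝ) / D.m0 =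
          91 / 100 * (((D.Av U cR n β i b).card : ℝ) / D.m0) := by
        field_simp
      rw [e1]
      have e2 : L1 D n i 2 / D.d = 23 / 25 - 10 / 22 * (((D.Qn n (!i)).card : ℝ) / D.d) -
          1 / (D.d : ℝ) := by
        change (23 / 25 * (D.d : ℝ) - 10 / 22 * ((D.Qn n (!i)).card : ℝ) - 1) / D.d = _
        field_simp
      rw [e2]
      set a := ((D.Av U cR n β i b).card : ℝ) / D.m0 with hadef
      obtain ⟨k1, k2⟩ := hκb n
      have h1 : ((D.Qn n (!i)).card : ℝ) / D.d ≤ 1 / 500 := by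
        rw [div_le_iff₀ hdpos]
        have := (hQ n hn (!i)).2
        linarith
      set q := ((D.Qn n (!i)).card : ℝ) / D.d with hqdef
      have h3 : (91 / 100 : ℝ) ≤ (1 - 1 / 200) * (23 / 25 - 10 / 22 * q - 1 / (D.d : ℝ)) -
          (S (D.X.sc n)).κ / 20000 := by linarith
      have := mul_le_mul_of_nonneg_right h3 ha
      linarith

end Pool.Agent.Work.MP_db9399_oc_helper22
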