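import Pool.Agent.Work.MP_db9399_oc_helper22.IDX1

/-!
# MP_db9399, block IDX2 (helper22)
-/

set_option autoImplicit false

namespace Pool.Agent.Work.MP_db9399_oc_helper22

open Finset Classical Filter
open Pool.Agent.Work.MP_db9399_all (nb)
open Pool.Agent.Work.MP_db9399_lt (us)
open Pool.Agent.Work.MP_db9399_da hiding qV
open Pool.Agent.Work.MP_db9399_xf
open Pool.Agent.Work.MP_db9399_x4
open Pool.Agent.Work.MP_db9399_oc

universe u

/-- a predicate for the right summand -/
def pir {V S : Type*} (p : ℕ → Prop) (i : V ⊕ S) (a : ℕ) : Prop := (∃ s, i = Sum.inr s) ∧ p a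

theorem pir_inr {V S : Type*} (p : ℕ → Prop) (s : S) (a : ℕ) :
    pir p (Sum.inr s : V ⊕ S) a ↔ p a :=
  ⟨fun h => h.2, fun h => ⟨⟨s, rfl⟩, h⟩⟩

section
variable {V : Type u} [Fintype V] {N J : ℕ} (D : OD V N J)

/-- the slots -/
abbrev Sl (D : OD V N J) : Type := Fin N × Bool × Bool × Fin (D.d + 2) × Fin D.Bq

omit [Fintype V] in
/-- tests for slots -/
theorem pk_slt [Fintype V] {K : Type u} [Fintype K] {P : (D.IV → ℕ) → Prop}
    (A : K → Finset (Sl D)) (j : K → ℕ) (hj : ∀ k, j k < D.m0)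
    (hA : ∀ k, ((A k).card : ℝ) ≤ (D.d : ℝ) ^ (40 : ℝ))
    (hK : ∀ s, ((univ.filter (fun k => s ∈ A k)).card : ℝ) ≤ (D.d : ℝ) ^ (40 : ℝ))
    (h : ∀ x : D.IV → ℕ, (∀ i, x i < D.mv i) →
      (∀ k, (((A k).filter (fun s => x (Sum.inr s) = j k)).card : ℝ) ≤
          (1 + 1 / 200) * (((A k).card : ℝ) / D.m0) + (Real.log D.d) ^ 2) → P x) : D.Pk P := by
  refine ipk_lin (K := K) (fun k => (A k).map Function.Embedding.inr)
    (fun k i a => pir (fun a => a = j k) i a) ?_ ?_ ?_
  · intro k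
    rw [Finset.card_map]
    exact hA k
  · rintro (v | s)
    · refine le_trans (le_of_eq (?_ : _ = (0 : ℝ))) (by positivity)
      rw [Nat.cast_eq_zero, Finset.card_eq_zero]
      refine Finset.eq_empty_of_forall_notMem (fun k hk => ?_)
      simp at hk
    · refine le_trans (le_of_eq ?_) (hK s)
      congr 2
      ext k
      simp only [Finset.mem_filter, Finset.mem_univ, true_and, Finset.mem_map,
        Function.Embedding.inr_apply, Sum.inr.injEq, exists_eq_right]
  · intro x hx hk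
    apply h x hx
    intro k
    obtain ⟨_, h2⟩ := hk k
    have hcard : (((A k).map Function.Embedding.inr).filter
        (fun i : D.IV => pir (fun a => a = j k) i (x i))).card =
        ((A k).filter (fun s => x (Sum.inr s) = j k)).card := by
      rw [Finset.filter_map, Finset.card_map]
      congr 1
      apply Finset.filter_congr
      intro s _
      exact pir_inr (fun a => a = j k) s _
    have hsum : ∑ i ∈ (A k).map Function.Embedding.inr, (((range (D.mv i)).filter
        (fun a => pir (fun a => a = j k) i a)).card : ℝ) / D.mv i =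
        ((A k).card : ℝ) / D.m0 := by
      rw [Finset.sum_map]
      have e0 : ∀ s ∈ A k, (((range (D.mv (Function.Embedding.inr s))).filter
          (fun a => pir (fun a => a = j k) (Function.Embedding.inr s : D.IV) a)).card : ℝ) /
            D.mv (Function.Embedding.inr s) = 1 / D.m0 := by
        intro s _
        have e1 : D.mv (Function.Embedding.inr s) = D.m0 := rfl
        rw [e1]
        have e2 : (range D.m0).filter
            (fun a => pir (fun a => a = j k) (Function.Embedding.inr s : D.IV) a) = {j k} := by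
          ext a
          rw [Finset.mem_filter, Finset.mem_singleton, Finset.mem_range]
          constructor
          · rintro ⟨_, h1⟩
            exact h1.2
          · rintro rfl
            exact ⟨hj k, ⟨s, rfl⟩, rfl⟩
        rw [e2, Finset.card_singleton, Nat.cast_one]
      rw [Finset.sum_congr rfl e0, Finset.sum_const, nsmul_eq_mul]
      ring
    rw [hcard, hsum] at h2
    exact h2

/-- slots with colours in `B` in a quarter -/
noncomputable def A2 (q : Fin N → Bool → Bool → ℕ → ℕ) (n : Fin N) (β i : Bool) (B : Finset ℕ) :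
    Finset (Sl D) :=
  univ.filter (fun s => s.1 = n ∧ s.2.1 = β ∧ s.2.2.1 = i ∧ (s.2.2.2.1 : ℕ) ∈ B ∧
    (s.2.2.2.2 : ℕ) < q n β i (s.2.2.2.1 : ℕ))

omit [Fintype V] in
theorem A2_filter {q : Fin N → Bool → Bool → ℕ → ℕ} {n : Fin N} {β i : Bool} {B : Finset ℕ}
    (hB : B ⊆ range (D.d + 2)) (hq : ∀ b ∈ B, q n β i b ≤ D.Bq) (pr : ℕ → ℕ → Prop) :
    ((A2 D q n β i B).filter (fun s => pr (s.2.2.2.1 : ℕ) (s.2.2.2.2 : ℕ))).card =
      ∑ b ∈ B, ((range (q n β i b)).filter (fun k => pr b k)).card := by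
  rw [← Finset.card_sigma]
  refine Finset.card_bij (fun s _ => (⟨(s.2.2.2.1 : ℕ), (s.2.2.2.2 : ℕ)⟩ : Σ _ : ℕ, ℕ))
    ?_ ?_ ?_
  · intro s hs
    obtain ⟨h1, h2⟩ := Finset.mem_filter.1 hs
    obtain ⟨_, _, _, _, h3, h4⟩ := Finset.mem_filter.1 h1
    exact Finset.mem_sigma.2 ⟨h3, Finset.mem_filter.2 ⟨Finset.mem_range.2 h4, h2⟩⟩
  · rintro ⟨n1, β1, i1, b1, k1⟩ h1 ⟨n2, β2, i2, b2, k2⟩ h2 he
    obtain ⟨_, a1, a2, a3, _⟩ := Finset.mem_filter.1 (Finset.mem_filter.1 h1).1
    obtain ⟨_, c1, c2, c3, _⟩ := Finset.mem_filter.1 (Finset.mem_filter.1 h2).1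
    dsimp only at a1 a2 a3 c1 c2 c3 he
    rw [Sigma.mk.injEq] at he
    obtain ⟨e1, e2⟩ := he
    have e3 : b1 = b2 := Fin.ext e1
    have e4 : k1 = k2 := Fin.ext (eq_of_heq e2)
    rw [a1, a2, a3, c1, c2, c3, e3, e4]
  · rintro ⟨b, k⟩ h
    obtain ⟨h1, h2⟩ := Finset.mem_sigma.1 h
    obtain ⟨h3, h4⟩ := Finset.mem_filter.1 h2
    rw [Finset.mem_range] at h3
    dsimp only at h1 h3 h4
    have hb : b < D.d + 2 := Finset.mem_range.1 (hB h1)
    have hk : k < D.Bq := lt_of_lt_of_le h3 (hq b h1)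
    refine ⟨(n, β, i, ⟨b, hb⟩, ⟨k, hk⟩), ?_, rfl⟩
    exact Finset.mem_filter.2 ⟨Finset.mem_filter.2 ⟨Finset.mem_univ _, rfl, rfl, rfl, h1, h3⟩, h4⟩

omit [Fintype V] in
theorem A2_card {q : Fin N → Bool → Bool → ℕ → ℕ} {n : Fin N} {β i : Bool} {B : Finset ℕ}
    (hB : B ⊆ range (D.d + 2)) (hq : ∀ b ∈ B, q n β i b ≤ D.Bq) :
    (A2 D q n β i B).card = ∑ b ∈ B, q n β i b := by
  have h := A2_filter D hB hq (fun _ _ => True)
  simpa using h

omit [Fintype V] in
theorem A2_nsl {q : Fin N → Bool → Bool → ℕ → ℕ} {n : Fin N} {β i : Bool} {B : Finset ℕ}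
    (hB : B ⊆ range (D.d + 2)) (hq : ∀ b ∈ B, q n β i b ≤ D.Bq) (x : D.IV → ℕ) (j : ℕ) :
    nsl q (D.sgX x) n β i B j =
      ((A2 D q n β i B).filter (fun s => x (Sum.inr s) = j)).card := by
  have h := A2_filter D hB hq (fun b k => D.sgX x n β i b k = j)
  have h2 : (A2 D q n β i B).filter (fun s => x (Sum.inr s) = j) =
      (A2 D q n β i B).filter (fun s => D.sgX x n β i (s.2.2.2.1 : ℕ) (s.2.2.2.2 : ℕ) = j) := by
    apply Finset.filter_congr
    rintro ⟨n', β', i', b, k⟩ hs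
    obtain ⟨_, a1, a2, a3, _⟩ := Finset.mem_filter.1 hs
    dsimp only at a1 a2 a3 ⊢
    subst a1 a2 a3
    unfold OD.sgX
    rw [dif_pos ⟨b.2, k.2⟩]
  rw [h2]
  unfold nsl
  refine Eq.trans ?_ (Eq.trans h.symm ?_)
  · refine Finset.sum_congr rfl (fun b _ => ?_)
    apply congrArg
    ext k
    simp only [Finset.mem_filter]
  · apply congrArg
    ext k
    simp only [Finset.mem_filter]

/-- colours of the tests -/
noncomputable def B2 (n : Fin N) (β i : Bool) (c : Fin 4) : Finset ℕ :=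
  match c with
  | 0 => (range (D.d + 2)).filter (fun b => D.kc n β i b = 1)
  | 1 => (range (D.d + 2)).filter (fun b => D.kc n β i b = 2)
  | 2 => (range (D.d + 2)).filter (fun b => D.kc n β i b = 3)
  | 3 => (D.Spc n).filter (fun b => D.kc n β i b = 2 ∨ D.kc n β i b = 3)

theorem B2_sub (n : Fin N) (β i : Bool) (c : Fin 4) : B2 D n β i c ⊆ range (D.d + 2) := by
  fin_cases c
  · exact Finset.filter_subset _ _
  · exact Finset.filter_subset _ _
  · exact Finset.filter_subset _ _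
  · exact (Finset.filter_subset _ _).trans (Finset.filter_subset _ _)

theorem B2_kc {n : Fin N} {β i : Bool} {c : Fin 4} {b : ℕ} (h : b ∈ B2 D n β i c) :
    D.kc n β i b = 1 ∨ D.kc n β i b ≠ 1 ∧ D.kc n β i b ≠ 4 := by
  fin_cases c
  · exact Or.inl (Finset.mem_filter.1 h).2
  · have h1 : D.kc n β i b = 2 := (Finset.mem_filter.1 h).2
    rw [h1]
    exact Or.inr ⟨by norm_num, by norm_num⟩
  · have h1 : D.kc n β i b = 3 := (Finset.mem_filter.1 h).2
    rw [h1]
    exact Or.inr ⟨by norm_num, by norm_num⟩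
  · have h1 : D.kc n β i b = 2 ∨ D.kc n β i b = 3 := (Finset.mem_filter.1 h).2
    rcases h1 with h1 | h1 <;> rw [h1] <;> exact Or.inr ⟨by norm_num, by norm_num⟩

/-- the index of a test -/
abbrev K2 : Type u := ULift.{u} (Fin N × Bool × Bool × Fin D.m0 × Fin 4)

theorem K2_dual (q : Fin N → Bool → Bool → ℕ → ℕ) (s : Sl D) :
    (univ.filter (fun kk : K2 D => s ∈
      A2 D q kk.down.1 kk.down.2.1 kk.down.2.2.1
        (B2 D kk.down.1 kk.down.2.1 kk.down.2.2.1 kk.down.2.2.2.2))).card ≤ D.m0 * 4 := by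
  have hsub : (univ.filter (fun kk : K2 D => s ∈
      A2 D q kk.down.1 kk.down.2.1 kk.down.2.2.1
        (B2 D kk.down.1 kk.down.2.1 kk.down.2.2.1 kk.down.2.2.2.2))) ⊆
      (univ : Finset (Fin D.m0 × Fin 4)).image
        (fun t => (ULift.up (s.1, s.2.1, s.2.2.1, t.1, t.2) : K2 D)) := by
    rintro ⟨n, β, i, j, c⟩ hk
    obtain ⟨_, h3, h4, h5, _⟩ := Finset.mem_filter.1 (Finset.mem_filter.1 hk).2
    rw [Finset.mem_image]
    refine ⟨(j, c), Finset.mem_univ _, ?_⟩
    dsimp only at h3 h4 h5 ⊢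
    rw [h3, h4, h5]
  refine (Finset.card_le_card hsub).trans (Finset.card_image_le.trans ?_)
  rw [Finset.card_univ, Fintype.card_prod, Fintype.card_fin, Fintype.card_fin]

end

/-- constant of IDX2 -/
noncomputable def c2 (k : Con) : ℝ := (k.X1 : ℝ) + 5 * (KX4 k.C k.πk : ℕ) + 5

theorem c2_pos (k : Con) : 5 ≤ c2 k := by
  unfold c2
  have h1 : (0 : ℝ) ≤ (k.X1 : ℝ) := Nat.cast_nonneg _
  have h2 : (0 : ℝ) ≤ ((KX4 k.C k.πk : ℕ) : ℝ) := Nat.cast_nonneg _
  linarith

/-- thresholds for IDX2 -/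
noncomputable def Th2 (k : Con) : Thr where
  π0 := fun _ => 1
  κ0 := fun _ _ => 1 / 1000
  ε0 := fun _ _ _ => 1 / 1000
  ζ0 := fun _ _ _ _ => 1
  θ0 := fun _ _ _ _ ζ => (ζ / (4000 * c2 k)) ^ 2

theorem Th2_pos (k : Con) : (Th2 k).Pos := by
  have h := c2_pos k
  refine ⟨fun _ _ => ?_, fun _ _ _ _ => ?_, fun _ _ _ _ _ _ => ?_, fun _ _ _ _ _ _ _ _ => ?_,
    fun _ _ _ _ ζ _ _ _ _ hζ => ?_⟩ <;> simp only [Th2]
  · norm_num
  · norm_num
  · norm_num
  · norm_num
  · positivity

theorem stmt_IDX2 : Stmt_IDX2.{u} := by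
  intro k hk
  refine ⟨Th2 k, Th2_pos k, ?_⟩
  intro J S c' hS hc0 hc1
  have hc2 := c2_pos k
  have hev : ∀ᶠ d : ℕ in atTop, 1000000 ≤ (d : ℝ) ∧ c2 k ≤ (d : ℝ) ∧
      ∀ s : Fin J, (Real.log d) ^ 2 ≤
        (S s).κ * Real.sqrt (S s).θ / 100000000 * (d : ℝ) ^ (c' / 2) := by
    refine (ev_const1 _).and ((ev_const1 _).and ?_)
    rw [eventually_all]
    intro s
    have hκ := (hS s).κ.1
    have hθ := Real.sqrt_pos.2 (hS s).θ.1
    exact ev_log (by positivity) (by linarith)
  obtain ⟨d0, hd0⟩ := eventually_atTop.1 hev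
  refine ⟨d0, ?_⟩
  intro V _ N D hD hDS hH U cR q hq hav
  obtain ⟨hd1, hdC, hd3⟩ := hd0 D.d hD
  have hdn : 1 ≤ D.d := by
    have : (1 : ℝ) ≤ D.d := by linarith
    exact_mod_cast this
  have hdpos : (0 : ℝ) < D.d := by linarith
  have hm := m0_pos hH hc1 hdn
  have hmR : (0 : ℝ) < D.m0 := by exact_mod_cast hm
  have hmle := m0_le_d hH hc0 hdn
  have hmul := m0_mul hH hdn
  have hX : ((D.X1 + 5 * D.K + 5 : ℕ) : ℝ) = c2 k := by
    rw [hH.X1, hH.K]
    unfold c2
    push_cast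
    ring
  have hX0 : (D.X0 : ℝ) ≤ D.d := by
    rw [hH.X0]
    refine (Nat.floor_le (by positivity)).trans ?_
    calc (D.d : ℝ) ^ (c' / 4) ≤ (D.d : ℝ) ^ (1 : ℝ) :=
          Real.rpow_le_rpow_of_exponent_le (by linarith) (by linarith)
      _ = D.d := Real.rpow_one _
  have hBq : (D.Bq : ℝ) ≤ 2 * D.d := by
    have : (D.Bq : ℝ) = D.X0 + ((D.X1 + 5 * D.K + 5 : ℕ) : ℝ) := by
      unfold OD.Bq
      push_cast
      ring
    rw [this, hX]
    linarith
  have hqB : ∀ n β i b, D.kc n β i b = 1 ∨ D.kc n β i b ≠ 1 ∧ D.kc n β i b ≠ 4 →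
      q n β i b ≤ D.Bq := by
    intro n β i b h
    unfold OD.Bq
    rcases h with h | ⟨h1, h2⟩
    · have := hq.q1 n β i b h
      omega
    · have := hq.q3 n β i b h1 h2
      omega
  have hcard : ∀ n β i c, (A2 D q n β i (B2 D n β i c)).card =
      ∑ b ∈ B2 D n β i c, q n β i b := fun n β i c =>
    A2_card D (B2_sub D n β i c) (fun b hb => hqB n β i b (B2_kc D hb))
  refine pk_slt D (K := K2 D)
    (fun kk => A2 D q kk.down.1 kk.down.2.1 kk.down.2.2.1
        (B2 D kk.down.1 kk.down.2.1 kk.down.2.2.1 kk.down.2.2.2.2))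
    (fun kk => (kk.down.2.2.2.1 : ℕ)) (fun kk => kk.down.2.2.2.1.2) ?_ ?_ ?_
  · rintro ⟨n, β, i, j, c⟩
    dsimp only
    refine pow40 hdn (n := 4) (by norm_num) ?_
    rw [hcard]
    have h1 : ∑ b ∈ B2 D n β i c, q n β i b ≤ (B2 D n β i c).card • D.Bq :=
      Finset.sum_le_card_nsmul _ _ _ (fun b hb => hqB n β i b (B2_kc D hb))
    have h2 : (B2 D n β i c).card ≤ D.d + 2 :=
      (Finset.card_le_card (B2_sub D n β i c)).trans (le_of_eq (Finset.card_range _))
    have h3 : ((∑ b ∈ B2 D n β i c, q n β i b : ℕ) : ℝ) ≤ ((D.d : ℝ) + 2) * D.Bq := by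
      have h4 : ∑ b ∈ B2 D n β i c, q n β i b ≤ (D.d + 2) * D.Bq := by
        rw [smul_eq_mul] at h1
        exact h1.trans (Nat.mul_le_mul_right _ h2)
      exact_mod_cast h4
    refine h3.trans ?_
    calc ((D.d : ℝ) + 2) * D.Bq ≤ (2 * D.d) * (2 * D.d) := by
          apply mul_le_mul (by linarith) hBq (Nat.cast_nonneg _) (by positivity)
      _ = 4 * (D.d : ℝ) ^ 2 := by ring
      _ ≤ (D.d : ℝ) ^ 2 * (D.d : ℝ) ^ 2 := by
          apply mul_le_mul_of_nonneg_right _ (by positivity)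
          nlinarith
      _ = (D.d : ℝ) ^ 4 := by ring
  · intro s
    refine pow40 hdn (n := 2) (by norm_num) ?_
    have h1 := K2_dual D q s
    have h2 : ((D.m0 * 4 : ℕ) : ℝ) ≤ (D.d : ℝ) ^ 2 := by
      push_cast
      have h3 : (D.m0 : ℝ) ≤ D.d := by exact_mod_cast hmle
      nlinarith
    exact le_trans (by exact_mod_cast h1) h2
  · intro x _ hx
    -- general form
    have key : ∀ n β i j (c : Fin 4), j < D.m0 →
        (nsl q (D.sgX x) n β i (B2 D n β i c) j : ℝ) ≤
          (1 + 1 / 200) * (((∑ b ∈ B2 D n β i c, q n β i b : ℕ) : ℝ) / D.m0) +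
            (Real.log D.d) ^ 2 := by
      intro n β i j c hj
      have h1 := hx (ULift.up (n, β, i, ⟨j, hj⟩, c))
      dsimp only at h1
      rw [hcard] at h1
      rw [A2_nsl D (B2_sub D n β i c) (fun b hb => hqB n β i b (B2_kc D hb))]
      exact card_le_of (fun _ _ => Iff.rfl) h1
    have hlog : ∀ n, (Real.log D.d) ^ 2 ≤ (S (D.X.sc n)).κ * Real.sqrt (S (D.X.sc n)).θ /
        100000000 * (D.d / D.m0) := by
      intro n
      have hκ := (hS (D.X.sc n)).κ.1
      have hθ := Real.sqrt_pos.2 (hS (D.X.sc n)).θ.1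
      refine (hd3 (D.X.sc n)).trans ?_
      apply mul_le_mul_of_nonneg_left _ (by positivity)
      rw [le_div_iff₀ hmR]
      exact hmul
    have hθ1 : ∀ n, Real.sqrt (S (D.X.sc n)).θ ≤ (S (D.X.sc n)).ζ / (4000 * c2 k) := by
      intro n
      have h1 := (hS (D.X.sc n)).θ.2
      have hζ := (hS (D.X.sc n)).ζ.1
      have h2 : (Th2 k).θ0 (S (D.X.sc n)).ρ (S (D.X.sc n)).π (S (D.X.sc n)).κ (S (D.X.sc n)).ε
        (S (D.X.sc n)).ζ = ((S (D.X.sc n)).ζ / (4000 * c2 k)) ^ 2 := rfl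
      rw [h2] at h1
      exact (Real.sqrt_le_sqrt h1).trans (le_of_eq (Real.sqrt_sq (by positivity)))
    have hθ2 : ∀ n, Real.sqrt (S (D.X.sc n)).θ ≤ 1 := by
      intro n
      refine (hθ1 n).trans ?_
      have hζ : (S (D.X.sc n)).ζ ≤ 1 := (hS (D.X.sc n)).ζ.2
      rw [div_le_one (by positivity)]
      linarith
    have hκb : ∀ n, 0 < (S (D.X.sc n)).κ ∧ (S (D.X.sc n)).κ ≤ 1 / 1000 := fun n => (hS _).κ
    have hqv : ∀ n, D.X.P.ty n = Ty.B → ∀ β i, 499 / 1000 * (D.d : ℝ) ≤
        ((qV D.X n β i).card : ℝ) := by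
      intro n hn β i
      refine le_trans ?_ (qV_ge hH hn β i)
      rw [hDS]
      have : (S (D.X.sc n)).ε ≤ 1 / 1000 := (hS _).ε.2
      have := mul_le_mul_of_nonneg_right this hdpos.le
      linarith
    have hqv' : ∀ n, D.X.P.ty n = Ty.B → ∀ β i, 499 / 1000 * ((D.d : ℝ) / D.m0) ≤
        ((qV D.X n β i).card : ℝ) / D.m0 := by
      intro n hn β i
      have := div_le_div_of_nonneg_right (hqv n hn β i) hmR.le
      rwa [mul_div_assoc] at this
    have hdm : 0 < (D.d : ℝ) / D.m0 := by positivity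
    refine ⟨?_, ?_, ?_, ?_⟩
    · intro n β i j hn hj
      refine (key n β i j 0 hj).trans ?_
      have h1 : ((∑ b ∈ B2 D n β i 0, q n β i b : ℕ) : ℝ) ≤
          1 / 500000 * (qV D.X n β i).card := by
        refine le_trans ?_ (hq.t1 n hn β i)
        have hsub : B2 D n β i 0 ⊆ (D.P n).filter (fun b => D.X1 < D.nd n β b) := by
          intro b hb
          have h2 : D.kc n β i b = 1 := (Finset.mem_filter.1 hb).2
          unfold OD.kc at h2
          rw [Finset.mem_filter]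
          by_cases g1 : b ∈ D.Qn n (!i)
          · rw [if_pos g1] at h2
            exact absurd h2 (by norm_num)
          rw [if_neg g1] at h2
          by_cases g2 : b ∈ D.P n
          · rw [if_pos g2] at h2
            by_cases g3 : D.nd n β b ≤ D.X1
            · rw [if_pos g3] at h2
              exact absurd h2 (by norm_num)
            · exact ⟨g2, not_le.1 g3⟩
          · rw [if_neg g2] at h2
            split_ifs at h2
            exact absurd h2 (by norm_num)
        exact_mod_cast Finset.sum_le_sum_of_subset hsub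
      have h2 := div_le_div_of_nonneg_right h1 hmR.le
      have h3 := hlog n
      have h4 := hqv' n hn β i
      obtain ⟨k1, k2⟩ := hκb n
      have h5 : (S (D.X.sc n)).κ * Real.sqrt (S (D.X.sc n)).θ ≤ 1 / 1000 * 1 :=
        mul_le_mul k2 (hθ2 n) (Real.sqrt_nonneg _) (by norm_num)
      have h6 : (S (D.X.sc n)).κ * Real.sqrt (S (D.X.sc n)).θ / 100000000 * (D.d / D.m0) ≤
          1 / 1000 / 100000000 * ((D.d : ℝ) / D.m0) := by
        apply mul_le_mul_of_nonneg_right _ hdm.le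
        linarith
      have e1 : 3 / 10 ^ 6 * ((qV D.X n β i).card : ℝ) / D.m0 =
          3 / 10 ^ 6 * (((qV D.X n β i).card : ℝ) / D.m0) := by ring
      have e2 : 1 / 500000 * ((qV D.X n β i).card : ℝ) / D.m0 =
          1 / 500000 * (((qV D.X n β i).card : ℝ) / D.m0) := by ring
      rw [e1]
      rw [e2] at h2
      linarith
    · intro n β i j hn hj
      refine (key n β i j 1 hj).trans ?_
      set Q : ℝ := ((D.Qn n (!i)).card : ℝ) with hQdef
      have hQ0 : 0 ≤ Q := Nat.cast_nonneg _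
      have hQ1 : (S (D.X.sc n)).κ * D.d ≤ Q := by
        have h1 := (hH.sel.Qc n (Or.inr hn) (!i)).1
        rw [hDS] at h1
        exact h1
      have hv := hqv n hn β i
      have h1 : ((∑ b ∈ B2 D n β i 1, q n β i b : ℕ) : ℝ) ≤
          Q * (1001 / 1000 * (qV D.X n β i).card) / (5 * D.d) := by
        have hsub : B2 D n β i 1 ⊆ D.Qn n (!i) := by
          intro b hb
          have h2 : D.kc n β i b = 2 := (Finset.mem_filter.1 hb).2
          unfold OD.kc at h2
          by_contra g1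
          rw [if_neg g1] at h2
          split_ifs at h2 <;> exact absurd h2 (by norm_num)
        have h2 : ∑ b ∈ B2 D n β i 1, q n β i b ≤ ∑ b ∈ D.Qn n (!i), q n β i b :=
          Finset.sum_le_sum_of_subset hsub
        have h2' : ((∑ b ∈ B2 D n β i 1, q n β i b : ℕ) : ℝ) ≤
            ((∑ b ∈ D.Qn n (!i), q n β i b : ℕ) : ℝ) := by exact_mod_cast h2
        refine h2'.trans ?_
        cases β
        · rw [le_div_iff₀ (by positivity)]
          have h3 := hq.t2 n hn i
          have h4 : ((qV D.X n false i).card : ℝ) + 1 ≤ 1001 / 1000 * (qV D.X n false i).card := by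
            linarith
          have h5 := mul_le_mul_of_nonneg_left h4 hQ0
          linarith
        · have h3 : ∑ b ∈ D.Qn n (!i), q n true i b = 0 :=
            Finset.sum_eq_zero (fun b hb => (hq.pq n hn i b hb).2)
          rw [h3, Nat.cast_zero]
          positivity
      have h2 := div_le_div_of_nonneg_right h1 hmR.le
      have h3 := hlog n
      obtain ⟨k1, k2⟩ := hκb n
      have e1 : 1 / 4 * Q * ((qV D.X n β i).card : ℝ) / (D.d * D.m0) =
          1 / 4 * (Q / D.d * (((qV D.X n β i).card : ℝ) / D.m0)) := by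
        field_simp
      have e2 : Q * (1001 / 1000 * ((qV D.X n β i).card : ℝ)) / (5 * D.d) / D.m0 =
          1001 / 5000 * (Q / D.d * (((qV D.X n β i).card : ℝ) / D.m0)) := by
        field_simp
        ring
      rw [e1]
      rw [e2] at h2
      have h4 : (S (D.X.sc n)).κ * (499 / 1000 * ((D.d : ℝ) / D.m0)) ≤
          Q / D.d * (((qV D.X n β i).card : ℝ) / D.m0) := by
        apply mul_le_mul _ (hqv' n hn β i) (by positivity) (by positivity)
        rw [le_div_iff₀ hdpos]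
        exact hQ1
      have h5 : (S (D.X.sc n)).κ * Real.sqrt (S (D.X.sc n)).θ / 100000000 * (D.d / D.m0) ≤
          1 / 100000000 * ((S (D.X.sc n)).κ * ((D.d : ℝ) / D.m0)) := by
        have h6 : (S (D.X.sc n)).κ * Real.sqrt (S (D.X.sc n)).θ ≤ (S (D.X.sc n)).κ * 1 :=
          mul_le_mul_of_nonneg_left (hθ2 n) k1.le
        have h7 := mul_le_mul_of_nonneg_right h6 hdm.le
        linarith
      have h6 : 0 ≤ (S (D.X.sc n)).κ * ((D.d : ℝ) / D.m0) := by positivity
      linarith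
    · intro n β i j hn hj
      refine (key n β i j 2 hj).trans ?_
      have h1 : ((∑ b ∈ B2 D n β i 2, q n β i b : ℕ) : ℝ) ≤
          84 / 100 * (qV D.X n β i).card := hq.t3 n hn β i
      have h2 := div_le_div_of_nonneg_right h1 hmR.le
      have h3 := hlog n
      have h4 := hqv' n hn β i
      obtain ⟨k1, k2⟩ := hκb n
      have h5 : (S (D.X.sc n)).κ * Real.sqrt (S (D.X.sc n)).θ ≤ 1 / 1000 * 1 :=
        mul_le_mul k2 (hθ2 n) (Real.sqrt_nonneg _) (by norm_num)
      have h6 : (S (D.X.sc n)).κ * Real.sqrt (S (D.X.sc n)).θ / 100000000 * (D.d / D.m0) ≤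
          1 / 1000 / 100000000 * ((D.d : ℝ) / D.m0) := by
        apply mul_le_mul_of_nonneg_right _ hdm.le
        linarith
      have e1 : 86 / 100 * ((qV D.X n β i).card : ℝ) / D.m0 =
          86 / 100 * (((qV D.X n β i).card : ℝ) / D.m0) := by ring
      have e2 : 84 / 100 * ((qV D.X n β i).card : ℝ) / D.m0 =
          84 / 100 * (((qV D.X n β i).card : ℝ) / D.m0) := by ring
      rw [e1]
      rw [e2] at h2
      linarith
    · intro n β i j hn hj
      refine (key n β i j 3 hj).trans ?_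
      have hζ := (hS (D.X.sc n)).ζ.1
      have hsl : D.sl n = S (D.X.sc n) := by unfold OD.sl; rw [hDS]
      have hsp := hav.sp n hn
      rw [hsl] at hsp ⊢
      set r := Real.sqrt (S (D.X.sc n)).θ with hr
      have hr0 : 0 ≤ r := Real.sqrt_nonneg _
      have hrr : (S (D.X.sc n)).θ = r * r := (Real.mul_self_sqrt (hS (D.X.sc n)).θ.1.le).symm
      have h1 : ((∑ b ∈ B2 D n β i 3, q n β i b : ℕ) : ℝ) ≤ 1 / 4 * r * D.d := by
        have h2 : ∑ b ∈ B2 D n β i 3, q n β i b ≤ (D.Spc n).card * (D.X1 + 5 * D.K + 5) := by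
          have h3 : ∑ b ∈ B2 D n β i 3, q n β i b ≤
              (B2 D n β i 3).card • (D.X1 + 5 * D.K + 5) := by
            refine Finset.sum_le_card_nsmul _ _ _ (fun b hb => ?_)
            have h4 : D.kc n β i b = 2 ∨ D.kc n β i b = 3 := (Finset.mem_filter.1 hb).2
            apply hq.q3
            · rcases h4 with h4 | h4 <;> rw [h4] <;> norm_num
            · rcases h4 with h4 | h4 <;> rw [h4] <;> norm_num
          rw [smul_eq_mul] at h3
          refine h3.trans (Nat.mul_le_mul_right _ (Finset.card_le_card ?_))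
          exact Finset.filter_subset _ _
        have h3 : ((∑ b ∈ B2 D n β i 3, q n β i b : ℕ) : ℝ) ≤ ((D.Spc n).card : ℝ) * c2 k := by
          rw [← hX]
          exact_mod_cast h2
        refine h3.trans ?_
        have h4 : ((D.Spc n).card : ℝ) ≤ 1000 * (r * r) * D.d / (S (D.X.sc n)).ζ := by
          rw [le_div_iff₀ hζ, ← hrr]
          exact hsp
        have h5 := mul_le_mul_of_nonneg_right h4 (by linarith : 0 ≤ c2 k)
        refine h5.trans ?_
        have h6 := hθ1 n
        rw [← hr, le_div_iff₀ (by positivity)] at h6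
        rw [div_mul_eq_mul_div, div_le_iff₀ hζ]
        have h7 := mul_le_mul_of_nonneg_left h6 (by positivity : 0 ≤ r * D.d / 4)
        calc 1000 * (r * r) * D.d * c2 k = r * D.d / 4 * (r * (4000 * c2 k)) := by ring
          _ ≤ r * D.d / 4 * (S (D.X.sc n)).ζ := h7
          _ = 1 / 4 * r * D.d * (S (D.X.sc n)).ζ := by ring
      have h2 := div_le_div_of_nonneg_right h1 hmR.le
      have h3 := hlog n
      rw [← hr] at h3
      obtain ⟨k1, k2⟩ := hκb n
      have h5 : (S (D.X.sc n)).κ * r ≤ 1 / 1000 * r := mul_le_mul_of_nonneg_right k2 hr0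
      have h6 := mul_le_mul_of_nonneg_right h5 hdm.le
      have e1 : r * D.d / D.m0 = r * ((D.d : ℝ) / D.m0) := by ring
      have e2 : 1 / 4 * r * D.d / D.m0 = 1 / 4 * (r * ((D.d : ℝ) / D.m0)) := by ring
      rw [e1]
      rw [e2] at h2
      have h7 : 0 ≤ r * ((D.d : ℝ) / D.m0) := by positivity
      linarith

end Pool.Agent.Work.MP_db9399_oc_helper22
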