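import Pool.Agent.Work.MP_db9399_oc_helper22.IDX1

/-!
# MP_db9399, block IDX3 (helper22)
-/

set_option autoImplicit false

namespace Pool.Agent.Work.MP_db9399_oc_helper22

open Finset Classical Filter
open Pool.Agent.Work.MP_db9399_all (nb)
open Pool.Agent.Work.MP_db9399_lt (us)
open Pool.Agent.Work.MP_db9399_da hiding qV
open Pool.Agent.Work.MP_db9399_xf
open Pool.Agent.Work.MP_db9399_x4
open Pool.Agent.Work.MP_db9399_oc

universe u

section
variable {V : Type u} [Fintype V] {N J : ℕ} (D : OD V N J)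

/-- T-neighbours of `v` in a quarter, `b` free -/
noncomputable def A3 (v : V) (n : Fin N) (β i : Bool) (b : ℕ) : Finset V :=
  (qV D.X n β i).filter (fun w => Te D.G D.X v w ∧ D.fr w b)

/-- the index of a test -/
abbrev K3 : Type u := V × (Fin N × Bool × Bool × Fin (D.d + 2) × Fin D.m0)

theorem K3_dual {k : Con} {c' : ℝ} (h : Hyp k c' D) (w : V) :
    (univ.filter (fun kk : K3 D => w ∈
      A3 D kk.1 kk.2.1 kk.2.2.1 kk.2.2.2.1 (kk.2.2.2.2.1 : ℕ))).card ≤
      D.d * ((D.d + 2) * D.m0) := by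
  have hsub : (univ.filter (fun kk : K3 D => w ∈
      A3 D kk.1 kk.2.1 kk.2.2.1 kk.2.2.2.1 (kk.2.2.2.2.1 : ℕ))) ⊆
      ((nb D.G w) ×ˢ (univ : Finset (Fin (D.d + 2) × Fin D.m0))).image
        (fun t => ((t.1, (D.X.P.pc w, D.X.P.sd w, D.X.P.pt w, t.2.1, t.2.2)) : K3 D)) := by
    rintro ⟨v, n, β, i, b, j⟩ hk
    have h1 := (Finset.mem_filter.1 hk).2
    obtain ⟨h2, h6, _⟩ := Finset.mem_filter.1 h1
    obtain ⟨⟨_, h3, h4⟩, h5⟩ := mem_qV.1 h2
    rw [Finset.mem_image]
    refine ⟨(v, (b, j)), ?_, ?_⟩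
    · rw [Finset.mem_product]
      exact ⟨Finset.mem_filter.2 ⟨Finset.mem_univ _, h6.1.1.symm⟩, Finset.mem_univ _⟩
    · dsimp only at h3 h4 h5 ⊢
      rw [h3, h4, h5]
  refine (Finset.card_le_card hsub).trans (Finset.card_image_le.trans ?_)
  rw [Finset.card_product, h.pc.reg w, Finset.card_univ, Fintype.card_prod, Fintype.card_fin,
    Fintype.card_fin]

end

theorem stmt_IDX3 : Stmt_IDX3.{u} := by
  intro k hk
  refine ⟨Th0, Th0_pos, ?_⟩
  intro J S c' hS hc0 hc1
  have hev : ∀ᶠ d : ℕ in atTop, 1000000 ≤ (d : ℝ) := ev_const1 _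
  obtain ⟨d0, hd0⟩ := eventually_atTop.1 hev
  refine ⟨d0, ?_⟩
  intro V _ N D hD hDS hH
  have hd1 := hd0 D.d hD
  have hdn : 1 ≤ D.d := by
    have : (1 : ℝ) ≤ D.d := by linarith
    exact_mod_cast this
  have hdpos : (0 : ℝ) < D.d := by linarith
  have hm := m0_pos hH hc1 hdn
  have hmR : (0 : ℝ) < D.m0 := by exact_mod_cast hm
  have hmd : (0 : ℝ) < D.m0 * D.d := by positivity
  have hmle := m0_le_d hH hc0 hdn
  have hcnt : ∀ j : Fin D.m0, ∀ (ip : DecidablePred (fun a => a % D.m0 = (j : ℕ))),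
      (@Finset.filter _ (fun a => a % D.m0 = (j : ℕ)) ip (range (D.m0 * D.d))).card = D.d := by
    intro j ip
    have h1 := cnt_mod D.m0 D.d j j.2 (fun _ => True)
      (_i := fun a => Classical.propDecidable _)
    simp only [true_and, Finset.filter_true, Finset.card_range] at h1
    refine Eq.trans ?_ h1
    congr 1
  refine pk_vtx D (K := K3 D)
    (fun kk => A3 D kk.1 kk.2.1 kk.2.2.1 kk.2.2.2.1 (kk.2.2.2.2.1 : ℕ))
    (fun kk v a => a % D.m0 = (kk.2.2.2.2.2 : ℕ))
    (fun kk => 0) (fun kk => 1 / D.m0) hm hdn ?_ ?_ ?_ ?_ ?_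
  · intro kk v hv
    rw [zero_mul]
    exact Nat.cast_nonneg _
  · intro kk v hv
    rw [hcnt]
    refine le_of_eq ?_
    field_simp
  · rintro ⟨v, n, β, i, b, j⟩
    dsimp only
    refine pow40 hdn (n := 1) (by norm_num) ?_
    rw [pow_one]
    have hsub : A3 D v n β i (b : ℕ) ⊆ nb D.G v := by
      intro w hw
      exact Finset.mem_filter.2 ⟨Finset.mem_univ _, (Finset.mem_filter.1 hw).2.1.1.1⟩
    have h1 := (Finset.card_le_card hsub).trans (le_of_eq (hH.pc.reg v))
    exact_mod_cast h1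
  · intro w
    refine pow40 hdn (n := 4) (by norm_num) ?_
    have h1 := K3_dual D hH w
    have h2 : ((D.d * ((D.d + 2) * D.m0) : ℕ) : ℝ) ≤ (D.d : ℝ) ^ 4 := by
      push_cast
      have h3 : (D.m0 : ℝ) ≤ D.d := by exact_mod_cast hmle
      have h4 : ((D.d : ℝ) + 2) ≤ 2 * D.d := by linarith
      calc (D.d : ℝ) * (((D.d : ℝ) + 2) * D.m0) ≤ D.d * ((2 * D.d) * D.d) := by
            apply mul_le_mul_of_nonneg_left _ hdpos.le
            exact mul_le_mul h4 h3 hmR.le (by positivity)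
        _ = 2 * (D.d : ℝ) ^ 3 := by ring
        _ ≤ D.d * (D.d : ℝ) ^ 3 := by
            apply mul_le_mul_of_nonneg_right _ (by positivity)
            linarith
        _ = (D.d : ℝ) ^ 4 := by ring
    exact le_trans (by exact_mod_cast h1) h2
  · intro x _ hx
    refine ⟨?_⟩
    intro v n β i b j hn hb hj
    have h1 := (hx (v, (n, β, i, ⟨b, hb⟩, ⟨j, hj⟩))).2
    dsimp only at h1
    have h2 : (qV D.X n β i).filter (fun w => Te D.G D.X v w ∧ D.fr w b ∧ D.tauX x w = j) =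
        (A3 D v n β i b).filter (fun w => D.tauX x w = j) := by
      unfold A3
      rw [Finset.filter_filter]
      apply Finset.filter_congr
      intro w _
      rw [and_assoc]
    rw [h2]
    refine le_trans (card_le_of (fun _ _ => Iff.rfl) h1) ?_
    have h3 : (0 : ℝ) ≤ ((A3 D v n β i b).card : ℝ) / D.m0 := by positivity
    have h4 : 1 / (D.m0 : ℝ) * ((A3 D v n β i b).card : ℝ) =
        ((A3 D v n β i b).card : ℝ) / D.m0 := by ring
    rw [h4]
    change _ ≤ 2 * ((A3 D v n β i b).card : ℝ) / D.m0 + _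
    have h5 : 2 * ((A3 D v n β i b).card : ℝ) / D.m0 =
        2 * (((A3 D v n β i b).card : ℝ) / D.m0) := by ring
    rw [h5]
    linarith

end Pool.Agent.Work.MP_db9399_oc_helper22
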