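import Pool.Agent.Work.MP_db9399_oc_helper22.Lin

/-!
# MP_db9399, blocks of OCB4: common facts (helper22)
-/

set_option autoImplicit false

namespace Pool.Agent.Work.MP_db9399_oc_helper22

open Finset Classical Filter
open Pool.Agent.Work.MP_db9399_all (nb)
open Pool.Agent.Work.MP_db9399_lt (us)
open Pool.Agent.Work.MP_db9399_da hiding qV
open Pool.Agent.Work.MP_db9399_xf
open Pool.Agent.Work.MP_db9399_x4
open Pool.Agent.Work.MP_db9399_oc

universe u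

/-! ### Large numbers -/

theorem ev_log {c r : ℝ} (hc : 0 < c) (hr : 0 < r) :
    ∀ᶠ d : ℕ in atTop, (Real.log d) ^ 2 ≤ c * (d : ℝ) ^ r := by
  have h1 := (isLittleO_log_rpow_rpow_atTop (2 : ℝ) hr).bound hc
  have h2 := tendsto_natCast_atTop_atTop (R := ℝ) |>.eventually h1
  filter_upwards [h2, eventually_ge_atTop 1] with d hd hd1
  have hd1' : (1 : ℝ) ≤ d := by exact_mod_cast hd1
  have hlog : 0 ≤ Real.log d := Real.log_nonneg hd1'
  rw [Real.norm_of_nonneg (Real.rpow_nonneg hlog _),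
    Real.norm_of_nonneg (Real.rpow_nonneg (Nat.cast_nonneg _) _)] at hd
  rw [← Real.rpow_natCast]
  exact_mod_cast hd

theorem ev_log1 {c : ℝ} (hc : 0 < c) :
    ∀ᶠ d : ℕ in atTop, (Real.log d) ^ 2 ≤ c * (d : ℝ) := by
  filter_upwards [ev_log hc (zero_lt_one)] with d hd
  rwa [Real.rpow_one] at hd

theorem ev_const (c : ℝ) {r : ℝ} (hr : 0 < r) : ∀ᶠ d : ℕ in atTop, c ≤ (d : ℝ) ^ r :=
  ((tendsto_rpow_atTop hr).comp tendsto_natCast_atTop_atTop).eventually_ge_atTop c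

theorem ev_const1 (c : ℝ) : ∀ᶠ d : ℕ in atTop, c ≤ (d : ℝ) :=
  tendsto_natCast_atTop_atTop.eventually_ge_atTop c

theorem pow40 {d : ℕ} (hd : 1 ≤ d) {x : ℝ} {n : ℕ} (hn : n ≤ 40) (hx : x ≤ (d : ℝ) ^ n) :
    x ≤ (d : ℝ) ^ (40 : ℝ) := by
  refine hx.trans ?_
  have h1 : (1 : ℝ) ≤ d := by exact_mod_cast hd
  have h2 : ((40 : ℕ) : ℝ) = (40 : ℝ) := by norm_num
  rw [← h2, Real.rpow_natCast]
  exact pow_le_pow_right₀ h1 hn

/-! ### Number of blocks -/

theorem m0_le {V : Type u} [Fintype V] {N J : ℕ} {k : Con} {c' : ℝ} {D : OD V N J}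
    (h : Hyp k c' D) : (D.m0 : ℝ) ≤ (D.d : ℝ) ^ (1 - c' / 2) := by
  rw [h.m0]
  exact Nat.floor_le (Real.rpow_nonneg (Nat.cast_nonneg _) _)

theorem m0_pos {V : Type u} [Fintype V] {N J : ℕ} {k : Con} {c' : ℝ} {D : OD V N J}
    (h : Hyp k c' D) (hc : c' ≤ 1 / 2) (hd : 1 ≤ D.d) : 0 < D.m0 := by
  rw [h.m0, Nat.floor_pos]
  exact Real.one_le_rpow (by exact_mod_cast hd) (by linarith)

theorem m0_le_d {V : Type u} [Fintype V] {N J : ℕ} {k : Con} {c' : ℝ} {D : OD V N J}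
    (h : Hyp k c' D) (hc : 0 < c') (hd : 1 ≤ D.d) : D.m0 ≤ D.d := by
  have h1 := m0_le h
  have h2 : (D.d : ℝ) ^ (1 - c' / 2) ≤ (D.d : ℝ) ^ (1 : ℝ) :=
    Real.rpow_le_rpow_of_exponent_le (by exact_mod_cast hd) (by linarith)
  rw [Real.rpow_one] at h2
  exact_mod_cast h1.trans h2

/-- `d / m0` is at least `d ^ (c' / 2)` -/
theorem m0_mul {V : Type u} [Fintype V] {N J : ℕ} {k : Con} {c' : ℝ} {D : OD V N J}
    (h : Hyp k c' D) (hd : 1 ≤ D.d) : (D.d : ℝ) ^ (c' / 2) * D.m0 ≤ D.d := by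
  have h1 := m0_le h
  have h0 : (0 : ℝ) < D.d := by exact_mod_cast hd
  calc (D.d : ℝ) ^ (c' / 2) * D.m0 ≤ (D.d : ℝ) ^ (c' / 2) * (D.d : ℝ) ^ (1 - c' / 2) :=
        mul_le_mul_of_nonneg_left h1 (Real.rpow_nonneg h0.le _)
    _ = (D.d : ℝ) := by
        rw [← Real.rpow_add h0, show c' / 2 + (1 - c' / 2) = 1 by ring, Real.rpow_one]

/-! ### Bulk neighbours -/

section
variable {V : Type u} [Fintype V] {N : ℕ} {G : SimpleGraph V} {P : Pcs V N}

theorem card_bk {n : Fin N} (f : V → Prop) (v : Ts P n) (i : Bool)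
    {_j : DecidablePred (fun w : Ts P n => f w.1)} :
    (@Finset.filter _ (fun w => f w.1) _j (nb (bk G P n) v ∩ prt (ptn P n) i)).card =
      ((univ.filter (fun w : V => (bulk G P).Adj v.1 w ∧ P.pt w = i)).filter f).card := by
  have himg : (univ.filter (fun w : V => (bulk G P).Adj v.1 w ∧ P.pt w = i)).filter f =
      (@Finset.filter _ (fun w => f w.1) _j (nb (bk G P n) v ∩ prt (ptn P n) i)).image
        Subtype.val := by
    ext w
    rw [Finset.mem_filter, Finset.mem_filter, Finset.mem_image]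
    constructor
    · rintro ⟨⟨_, h1, h2⟩, h3⟩
      have hw : w ∉ P.V0 ∧ P.pc w = n := ⟨h1.2.2.1, h1.2.2.2.1 ▸ v.2.2⟩
      refine ⟨⟨w, hw⟩, ?_, rfl⟩
      rw [Finset.mem_filter, Finset.mem_inter]
      refine ⟨⟨?_, ?_⟩, h3⟩
      · exact Finset.mem_filter.2 ⟨Finset.mem_univ _, h1⟩
      · exact Finset.mem_filter.2 ⟨Finset.mem_univ _, h2⟩
    · rintro ⟨w', hw', rfl⟩
      rw [Finset.mem_filter, Finset.mem_inter] at hw'
      obtain ⟨⟨h1, h2⟩, h3⟩ := hw'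
      exact ⟨⟨Finset.mem_univ _, (Finset.mem_filter.1 h1).2, (Finset.mem_filter.1 h2).2⟩, h3⟩
  rw [himg, Finset.card_image_of_injective _ Subtype.val_injective]

theorem card_bk' {n : Fin N} (v : Ts P n) (i : Bool) :
    (nb (bk G P n) v ∩ prt (ptn P n) i).card =
      (univ.filter (fun w : V => (bulk G P).Adj v.1 w ∧ P.pt w = i)).card := by
  have h := card_bk (G := G) (P := P) (n := n) (fun _ => True) v i
    (_j := fun _ => instDecidableTrue)
  simpa using h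

end

/-! ### Sizes -/

section
variable {V : Type u} [Fintype V] {N J : ℕ} {k : Con} {c' : ℝ} {D : OD V N J}

theorem mem_sV {n : Fin N} {β : Bool} {v : V} :
    v ∈ sV D.X.P n β ↔ v ∉ D.X.P.V0 ∧ D.X.P.pc v = n ∧ D.X.P.sd v = β := by
  unfold sV; simp

theorem mem_qV {n : Fin N} {β i : Bool} {v : V} :
    v ∈ qV D.X n β i ↔ (v ∉ D.X.P.V0 ∧ D.X.P.pc v = n ∧ D.X.P.sd v = β) ∧ D.X.P.pt v = i := by
  unfold Pool.Agent.Work.MP_db9399_xf.qV
  rw [Finset.mem_filter, mem_sV]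

theorem side_ne (h : Hyp k c' D) {n : Fin N} (hn : D.X.P.ty n = Ty.B) (β : Bool) :
    ∃ v, v ∈ sV D.X.P n β := by
  have h1 := h.pc.bN n hn
  have h2 := h.pc.bE n hn
  obtain ⟨w, hw⟩ := h1
  have hw' : w ∉ D.X.P.V0 ∧ D.X.P.pc w = n := by
    unfold pV at hw
    simpa using hw
  have hw2 : w ∈ sV D.X.P n (D.X.P.sd w) := mem_sV.2 ⟨hw'.1, hw'.2, rfl⟩
  have h3 : 0 < (sV D.X.P n (D.X.P.sd w)).card := Finset.card_pos.2 ⟨w, hw2⟩
  have h4 : 0 < (sV D.X.P n β).card := by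
    cases hs : D.X.P.sd w <;> cases β <;> rw [hs] at h3 <;> omega
  exact Finset.card_pos.1 h4

/-- the quarters are large -/
theorem qV_ge (h : Hyp k c' D) {n : Fin N} (hn : D.X.P.ty n = Ty.B) (β i : Bool) :
    (1 / 2 - (D.S (D.X.sc n)).ε) * D.d ≤ ((qV D.X n β i).card : ℝ) := by
  obtain ⟨v, hv⟩ := side_ne h hn (!β)
  obtain ⟨v1, v2, v3⟩ := mem_sV.1 hv
  have h1 := h.pc.bD n hn ⟨v, v1, v2⟩ i
  rw [card_bk'] at h1
  have h2 : (univ.filter (fun w : V => (bulk D.G D.X.P).Adj v w ∧ D.X.P.pt w = i)) ⊆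
      qV D.X n β i := by
    intro w hw
    obtain ⟨_, hw1, hw2⟩ := Finset.mem_filter.1 hw
    obtain ⟨a1, a2, a3, a4, a5⟩ := hw1
    rw [mem_qV]
    refine ⟨⟨a3, a4 ▸ v2, ?_⟩, hw2⟩
    have h5 := a5 (by rw [v2]; exact hn)
    rw [v3] at h5
    revert h5
    cases D.X.P.sd w <;> cases β <;> simp
  have h3 : ((univ.filter (fun w : V => (bulk D.G D.X.P).Adj v w ∧ D.X.P.pt w = i)).card : ℝ) ≤
      (qV D.X n β i).card := by exact_mod_cast Finset.card_le_card h2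
  have h4 := (abs_le.1 h1).1
  linarith

theorem pV_le (h : Hyp k c' D) (n : Fin N) : ((pV D.X.P n).card : ℝ) ≤ k.C * D.d := by
  rcases (pV D.X.P n).eq_empty_or_nonempty with he | ⟨v, hv⟩
  · rw [he, Finset.card_empty, Nat.cast_zero]
    by_contra hcon
    push Not at hcon
    have h1 := h.pc.clc 0
    have : (0 : ℝ) ≤ ((univ.filter (fun v => D.X.cq v = some 0)).card : ℝ) := Nat.cast_nonneg _
    linarith
  · have hv' : v ∉ D.X.P.V0 ∧ D.X.P.pc v = n := by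
      unfold pV at hv
      simpa using hv
    have h1 := h.pc.cln v hv'.1
    obtain ⟨c, hc⟩ := Option.ne_none_iff_exists'.1 h1
    refine le_trans ?_ (h.pc.clc c)
    have h2 : pV D.X.P n ⊆ univ.filter (fun v => D.X.cq v = some c) := by
      intro w hw
      have hw' : w ∉ D.X.P.V0 ∧ D.X.P.pc w = n := by
        unfold pV at hw
        simpa using hw
      rw [Finset.mem_filter]
      refine ⟨Finset.mem_univ _, ?_⟩
      rw [← hc]
      exact h.pc.clp w v hw'.1 hv'.1 (hw'.2.trans hv'.2.symm)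
    exact_mod_cast Finset.card_le_card h2

theorem qV_sub_pV (n : Fin N) (β i : Bool) : qV D.X n β i ⊆ pV D.X.P n := by
  intro v hv
  obtain ⟨⟨h1, h2, _⟩, _⟩ := mem_qV.1 hv
  unfold pV
  simp [h1, h2]

theorem qV_le (h : Hyp k c' D) (n : Fin N) (β i : Bool) :
    ((qV D.X n β i).card : ℝ) ≤ k.C * D.d :=
  le_trans (by exact_mod_cast Finset.card_le_card (qV_sub_pV n β i)) (pV_le h n)

end

end Pool.Agent.Work.MP_db9399_oc_helper22
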