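import Pool.Agent.Work.MP_db9399_oc.Interface

/-!
# MP_db9399, blocks of OCB4: linear counting tests (helper22)
-/

set_option autoImplicit false

namespace Pool.Agent.Work.MP_db9399_oc_helper22

open Finset Classical
open Pool.Agent.Work.MP_db9399_all (nb)
open Pool.Agent.Work.MP_db9399_lt (us)
open Pool.Agent.Work.MP_db9399_da hiding qV
open Pool.Agent.Work.MP_db9399_xf
open Pool.Agent.Work.MP_db9399_x4
open Pool.Agent.Work.MP_db9399_oc

universe u

/-! ### Counting tests -/

/-- counting tests, all variables active -/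
theorem ipk_lin {I : Type u} {K : Type u} [Fintype K] {B δ L : ℝ} {m : I → ℕ}
    {P : (I → ℕ) → Prop} (A : K → Finset I) (p : K → I → ℕ → Prop)
    (hA : ∀ k, ((A k).card : ℝ) ≤ B)
    (hK : ∀ i, ((univ.filter (fun k => i ∈ A k)).card : ℝ) ≤ B)
    (h : ∀ x : I → ℕ, (∀ i, x i < m i) →
      (∀ k, (1 - δ) * (∑ i ∈ A k, (((range (m i)).filter (fun a => p k i a)).card : ℝ) / m i) - L ≤
          (((A k).filter (fun i => p k i (x i))).card : ℝ) ∧
        (((A k).filter (fun i => p k i (x i))).card : ℝ) ≤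
          (1 + δ) * (∑ i ∈ A k, (((range (m i)).filter (fun a => p k i a)).card : ℝ) / m i) + L) →
      P x) :
    IPk B δ L m P := by
  refine ⟨K, inferInstance, A, A, fun k x i => if p k i (x i) then 1 else 0,
    fun k => ∑ i ∈ A k, (((range (m i)).filter (fun a => p k i a)).card : ℝ) / m i,
    fun _ => 1, ⟨fun k => Finset.Subset.refl _, hA, hK, ?_, ?_, fun _ => zero_le_one, ?_⟩, ?_⟩
  · intro k x _ i _
    split_ifs <;> norm_num
  · intro k x _ i _
    split_ifs <;> norm_num
  · intro k i _ x y hxy _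
    rw [hxy]
  · intro x hx hk
    apply h x hx
    intro k
    obtain ⟨h1, h2⟩ := hk k
    have hmn : mn m (A k) (fun x i => if p k i (x i) then (1 : ℝ) else 0) x =
        ∑ i ∈ A k, (((range (m i)).filter (fun a => p k i a)).card : ℝ) / m i := by
      unfold mn
      refine Finset.sum_congr rfl (fun i _ => ?_)
      congr 1
      simp only [Function.update_self]
      rw [Finset.card_filter]
      push_cast
      rfl
    have hs : ∑ i ∈ A k, (if p k i (x i) then (1 : ℝ) else 0) =
        (((A k).filter (fun i => p k i (x i))).card : ℝ) := by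
      rw [Finset.card_filter]
      push_cast
      rfl
    have h3 := h1 (le_of_eq hmn)
    have h4 := h2 (le_of_eq hmn.symm)
    rw [hs] at h3 h4
    constructor
    · linarith
    · linarith

/-! ### Counting residues -/

theorem le_card_of {α : Type*} {s : Finset α} {p q : α → Prop} {_ip : DecidablePred p}
    {_iq : DecidablePred q} (h : ∀ a ∈ s, p a ↔ q a) {x : ℝ} (hx : x ≤ ((s.filter p).card : ℝ)) :
    x ≤ ((s.filter q).card : ℝ) := by
  rwa [Finset.filter_congr h] at hx

theorem card_le_of {α : Type*} {s : Finset α} {p q : α → Prop} {_ip : DecidablePred p}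
    {_iq : DecidablePred q} (h : ∀ a ∈ s, p a ↔ q a) {x : ℝ} (hx : ((s.filter p).card : ℝ) ≤ x) :
    ((s.filter q).card : ℝ) ≤ x := by
  rwa [Finset.filter_congr h] at hx

theorem cnt_mod (m0 d j : ℕ) (hj : j < m0) (p : ℕ → Prop) [DecidablePred p]
    {_i : DecidablePred (fun a => p (a / m0) ∧ a % m0 = j)} :
    ((range (m0 * d)).filter (fun a => p (a / m0) ∧ a % m0 = j)).card =
      ((range d).filter (fun y => p y)).card := by
  have hm : 0 < m0 := lt_of_le_of_lt (Nat.zero_le _) hj
  have himg : (range (m0 * d)).filter (fun a => p (a / m0) ∧ a % m0 = j) =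
      ((range d).filter (fun y => p y)).image (fun y => m0 * y + j) := by
    ext a
    rw [Finset.mem_filter, Finset.mem_image, Finset.mem_range]
    constructor
    · rintro ⟨h1, h2, h3⟩
      refine ⟨a / m0, Finset.mem_filter.2 ⟨Finset.mem_range.2 ?_, h2⟩, ?_⟩
      · exact Nat.div_lt_of_lt_mul h1
      · rw [← h3]
        exact Nat.div_add_mod a m0
    · rintro ⟨y, hy, rfl⟩
      obtain ⟨hy1, hy2⟩ := Finset.mem_filter.1 hy
      rw [Finset.mem_range] at hy1
      have e1 : (m0 * y + j) / m0 = y := by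
        rw [Nat.mul_add_div hm, Nat.div_eq_of_lt hj, add_zero]
      have e2 : (m0 * y + j) % m0 = j := by
        rw [Nat.mul_add_mod, Nat.mod_eq_of_lt hj]
      refine ⟨?_, ?_, e2⟩
      · calc m0 * y + j < m0 * y + m0 := by omega
          _ = m0 * (y + 1) := by ring
          _ ≤ m0 * d := Nat.mul_le_mul_left _ hy1
      · rw [e1]; exact hy2
  rw [himg, Finset.card_image_of_injective]
  intro y y' h
  have h' : m0 * y + j = m0 * y' + j := h
  exact Nat.eq_of_mul_eq_mul_left hm (by omega)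

theorem cnt_div (m0 d : ℕ) (hm : 0 < m0) (p : ℕ → Prop) [DecidablePred p]
    {_i : DecidablePred (fun a => p (a / m0))} :
    ((range (m0 * d)).filter (fun a => p (a / m0))).card =
      m0 * ((range d).filter (fun y => p y)).card := by
  have h := Finset.card_eq_sum_card_fiberwise (s := (range (m0 * d)).filter (fun a => p (a / m0)))
    (t := range m0) (f := fun a => a % m0)
    (fun a _ => Finset.mem_coe.2 (Finset.mem_range.2 (Nat.mod_lt _ hm)))
  rw [h]
  rw [Finset.sum_congr rfl (g := fun _ => ((range d).filter (fun y => p y)).card)]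
  · rw [Finset.sum_const, Finset.card_range, smul_eq_mul]
  · intro j hj
    rw [Finset.mem_range] at hj
    rw [Finset.filter_filter]
    exact cnt_mod m0 d j hj p

theorem cnt_Ico (d : ℕ) (α β : ℝ) (hα : 0 ≤ α) (hαβ : α ≤ β) (hβ : β ≤ d) :
    β - α - 1 ≤ (((range d).filter (fun y : ℕ => α ≤ (y : ℝ) ∧ (y : ℝ) < β)).card : ℝ) ∧
      (((range d).filter (fun y : ℕ => α ≤ (y : ℝ) ∧ (y : ℝ) < β)).card : ℝ) ≤ β - α + 1 := by
  have himg : (range d).filter (fun y : ℕ => α ≤ (y : ℝ) ∧ (y : ℝ) < β) =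
      Finset.Ico ⌈α⌉₊ ⌈β⌉₊ := by
    ext y
    rw [Finset.mem_filter, Finset.mem_Ico, Finset.mem_range, Nat.ceil_le, Nat.lt_ceil]
    constructor
    · rintro ⟨_, h⟩; exact h
    · rintro ⟨h1, h2⟩
      refine ⟨?_, h1, h2⟩
      have : (y : ℝ) < d := lt_of_lt_of_le h2 hβ
      exact_mod_cast this
  rw [himg, Nat.card_Ico]
  have hle : ⌈α⌉₊ ≤ ⌈β⌉₊ := Nat.ceil_le_ceil hαβ
  rw [Nat.cast_sub hle]
  have h1 := Nat.le_ceil α
  have h2 := Nat.le_ceil β
  have h3 := Nat.ceil_lt_add_one hα
  have h4 := Nat.ceil_lt_add_one (hα.trans hαβ)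
  constructor <;> linarith

/-! ### Vertex variables -/

/-- a predicate for the left summand -/
def pin {V S : Type*} (p : V → ℕ → Prop) (i : V ⊕ S) (a : ℕ) : Prop := ∃ v, i = Sum.inl v ∧ p v a

theorem pin_inl {V S : Type*} (p : V → ℕ → Prop) (v : V) (a : ℕ) :
    pin p (Sum.inl v : V ⊕ S) a ↔ p v a := by
  constructor
  · rintro ⟨w, hw, h⟩
    rw [Sum.inl.injEq] at hw
    rw [hw]; exact h
  · intro h
    exact ⟨v, rfl, h⟩

section regs
variable {V : Type u} {N J : ℕ} (D : OD V N J)

/-- region for the second coordinate `y` of the variable of `v` -/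
noncomputable def reg (v : V) (y : ℕ) : ℕ :=
  if 25 * y < D.d then 0
  else if 25 * y < 2 * D.d then 1
  else if ((y : ℕ) : ℝ) <
    2 * D.d / 25 + 10 / 22 * (D.Qn (D.X.P.pc v) (!(D.X.P.pt v))).card then 2 else 3

theorem rgX_eq [Fintype V] (x : D.IV → ℕ) (v : V) : D.rgX x v = reg D v (x (Sum.inl v) / D.m0) := rfl

theorem reg0 (v : V) (y : ℕ) : reg D v y = 0 ↔ (0 : ℝ) ≤ y ∧ (y : ℝ) < D.d / 25 := by
  have h1 : 25 * y < D.d ↔ (y : ℝ) < D.d / 25 := by
    rw [lt_div_iff₀ (by norm_num : (0 : ℝ) < 25), mul_comm]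
    exact_mod_cast Iff.rfl
  rw [← h1]
  unfold reg
  split_ifs with h2 h3 h4
  · exact ⟨fun _ => ⟨Nat.cast_nonneg _, h2⟩, fun _ => rfl⟩
  · exact ⟨fun h => absurd h (by norm_num), fun h => absurd h.2 h2⟩
  · exact ⟨fun h => absurd h (by norm_num), fun h => absurd h.2 h2⟩
  · exact ⟨fun h => absurd h (by norm_num), fun h => absurd h.2 h2⟩

theorem reg1 (v : V) (y : ℕ) :
    reg D v y = 1 ↔ (D.d / 25 : ℝ) ≤ y ∧ (y : ℝ) < 2 * D.d / 25 := by
  have h1 : 25 * y < D.d ↔ (y : ℝ) < D.d / 25 := by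
    rw [lt_div_iff₀ (by norm_num : (0 : ℝ) < 25), mul_comm]
    exact_mod_cast Iff.rfl
  have h2 : 25 * y < 2 * D.d ↔ (y : ℝ) < 2 * D.d / 25 := by
    rw [lt_div_iff₀ (by norm_num : (0 : ℝ) < 25), mul_comm]
    exact_mod_cast Iff.rfl
  rw [← h2, ← not_lt, ← h1]
  unfold reg
  split_ifs with h3 h4 h5
  · exact ⟨fun h => absurd h (by norm_num), fun h => absurd h3 h.1⟩
  · exact ⟨fun _ => ⟨h3, h4⟩, fun _ => rfl⟩
  · exact ⟨fun h => absurd h (by norm_num), fun h => absurd h.2 h4⟩
  · exact ⟨fun h => absurd h (by norm_num), fun h => absurd h.2 h4⟩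

theorem reg2 (v : V) (y : ℕ) :
    reg D v y = 2 ↔ (2 * D.d / 25 : ℝ) ≤ y ∧ (y : ℝ) <
      2 * D.d / 25 + 10 / 22 * (D.Qn (D.X.P.pc v) (!(D.X.P.pt v))).card := by
  have h2 : 25 * y < 2 * D.d ↔ (y : ℝ) < 2 * D.d / 25 := by
    rw [lt_div_iff₀ (by norm_num : (0 : ℝ) < 25), mul_comm]
    exact_mod_cast Iff.rfl
  rw [← not_lt, ← h2]
  unfold reg
  split_ifs with h3 h4 h5
  · exact ⟨fun h => absurd h (by norm_num), fun h => absurd (by omega) h.1⟩
  · exact ⟨fun h => absurd h (by norm_num), fun h => absurd h4 h.1⟩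
  · exact ⟨fun _ => ⟨h4, h5⟩, fun _ => rfl⟩
  · exact ⟨fun h => absurd h (by norm_num), fun h => absurd h.2 h5⟩

theorem reg3 (v : V) (y : ℕ) :
    reg D v y = 3 ↔
      (2 * D.d / 25 + 10 / 22 * (D.Qn (D.X.P.pc v) (!(D.X.P.pt v))).card : ℝ) ≤ y := by
  have h2 : 25 * y < 2 * D.d ↔ (y : ℝ) < 2 * D.d / 25 := by
    rw [lt_div_iff₀ (by norm_num : (0 : ℝ) < 25), mul_comm]
    exact_mod_cast Iff.rfl
  have hq : (0 : ℝ) ≤ 10 / 22 * (D.Qn (D.X.P.pc v) (!(D.X.P.pt v))).card := by positivity
  unfold reg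
  split_ifs with h3 h4 h5
  · have h4 : 25 * y < 2 * D.d := by omega
    rw [h2] at h4
    exact ⟨fun h => absurd h (by norm_num), fun h => by linarith⟩
  · rw [h2] at h4
    exact ⟨fun h => absurd h (by norm_num), fun h => by linarith⟩
  · exact ⟨fun h => absurd h (by norm_num), fun h => by linarith⟩
  · exact ⟨fun _ => not_lt.1 h5, fun _ => rfl⟩

end regs

section vtx
variable {V : Type u} [Fintype V] {N J : ℕ} (D : OD V N J)

/-- tests for vertices: the predicates depend on the variable of the vertex -/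
theorem pk_vtx {K : Type u} [Fintype K] {P : (D.IV → ℕ) → Prop} (A : K → Finset V)
    (p : K → V → ℕ → Prop) (lo hi : K → ℝ) (hm : 0 < D.m0) (hd : 0 < D.d)
    (hlo : ∀ k, ∀ v ∈ A k, lo k * (D.m0 * D.d) ≤
      (((range (D.m0 * D.d)).filter (fun a => p k v a)).card : ℝ))
    (hhi : ∀ k, ∀ v ∈ A k, (((range (D.m0 * D.d)).filter (fun a => p k v a)).card : ℝ) ≤
      hi k * (D.m0 * D.d))
    (hA : ∀ k, ((A k).card : ℝ) ≤ (D.d : ℝ) ^ (40 : ℝ))
    (hK : ∀ v, ((univ.filter (fun k => v ∈ A k)).card : ℝ) ≤ (D.d : ℝ) ^ (40 : ℝ))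
    (h : ∀ x : D.IV → ℕ, (∀ i, x i < D.mv i) →
      (∀ k, (1 - 1 / 200) * (lo k * (A k).card) - (Real.log D.d) ^ 2 ≤
          (((A k).filter (fun v => p k v (x (Sum.inl v)))).card : ℝ) ∧
        (((A k).filter (fun v => p k v (x (Sum.inl v)))).card : ℝ) ≤
          (1 + 1 / 200) * (hi k * (A k).card) + (Real.log D.d) ^ 2) → P x) : D.Pk P := by
  have hmd : (0 : ℝ) < D.m0 * D.d := by positivity
  refine ipk_lin (K := K) (fun k => (A k).map Function.Embedding.inl)
    (fun k i a => pin (p k) i a) ?_ ?_ ?_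
  · intro k
    rw [Finset.card_map]
    exact hA k
  · rintro (v | s)
    · refine le_trans (le_of_eq ?_) (hK v)
      congr 2
      ext k
      simp only [Finset.mem_filter, Finset.mem_univ, true_and, Finset.mem_map,
        Function.Embedding.inl_apply, Sum.inl.injEq, exists_eq_right]
    · refine le_trans (le_of_eq (?_ : _ = (0 : ℝ))) (by positivity)
      rw [Nat.cast_eq_zero, Finset.card_eq_zero]
      refine Finset.eq_empty_of_forall_notMem (fun k hk => ?_)
      simp at hk
  · intro x hx hk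
    apply h x hx
    intro k
    obtain ⟨h1, h2⟩ := hk k
    have hcard : (((A k).map Function.Embedding.inl).filter
        (fun i : D.IV => pin (p k) i (x i))).card =
        ((A k).filter (fun v => p k v (x (Sum.inl v)))).card := by
      rw [Finset.filter_map, Finset.card_map]
      congr 1
      apply Finset.filter_congr
      intro v _
      exact pin_inl (p k) v _
    have hsum : ∑ i ∈ (A k).map Function.Embedding.inl, (((range (D.mv i)).filter
        (fun a => pin (p k) i a)).card : ℝ) / D.mv i =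
        ∑ v ∈ A k, (((range (D.m0 * D.d)).filter (fun a => p k v a)).card : ℝ) /
          (D.m0 * D.d) := by
      rw [Finset.sum_map]
      refine Finset.sum_congr rfl (fun v _ => ?_)
      have e1 : D.mv (Function.Embedding.inl v) = D.m0 * D.d := rfl
      rw [e1]
      congr 2
      · congr 1
        apply Finset.filter_congr
        intro a _
        exact pin_inl (p k) v a
      · push_cast; rfl
    rw [hcard, hsum] at h1 h2
    have hL : lo k * (A k).card ≤
        ∑ v ∈ A k, (((range (D.m0 * D.d)).filter (fun a => p k v a)).card : ℝ) /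
          (D.m0 * D.d) := by
      rw [mul_comm (lo k), ← nsmul_eq_mul]
      refine Finset.card_nsmul_le_sum _ _ _ (fun v hv => ?_)
      rw [le_div_iff₀ hmd]
      exact hlo k v hv
    have hU : ∑ v ∈ A k, (((range (D.m0 * D.d)).filter (fun a => p k v a)).card : ℝ) /
          (D.m0 * D.d) ≤ hi k * (A k).card := by
      have e1 : ∀ v ∈ A k, (((range (D.m0 * D.d)).filter (fun a => p k v a)).card : ℝ) /
          (D.m0 * D.d) ≤ hi k := by
        intro v hv
        rw [div_le_iff₀ hmd]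
        exact hhi k v hv
      have e2 := Finset.sum_le_card_nsmul (A k) _ _ e1
      rw [nsmul_eq_mul] at e2
      linarith
    constructor
    · refine le_trans ?_ h1
      have := mul_le_mul_of_nonneg_left hL (by norm_num : (0 : ℝ) ≤ 1 - 1 / 200)
      linarith
    · refine le_trans h2 ?_
      have := mul_le_mul_of_nonneg_left hU (by norm_num : (0 : ℝ) ≤ 1 + 1 / 200)
      linarith

end vtx

end Pool.Agent.Work.MP_db9399_oc_helper22
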